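import Pool.Agent.W127.K33Main

set_option autoImplicit false

/-!
# A 13-vertex triangle-free graph with K_6 minor and without K_{3,3} induced minor: conclusion
-/

namespace Pool.Agent.W127.K33F

theorem tst_eq {n a : Nat} {r : Bool} (h : n &&& a ≠ 0) : tst n a r = r := by
  unfold tst
  rw [land_eq, beq_false_of_ne h]
  rfl

theorem mem_getD {e i : Nat} (l : List (List Nat)) (h : e ∈ l.getD i []) :
    i < l.length ∧ ∃ a ∈ l, e ∈ a := by
  rcases Nat.lt_or_ge i l.length with hlt | hge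
  · refine ⟨hlt, l[i], List.getElem_mem hlt, ?_⟩
    rw [List.getD_eq_getElem?_getD, List.getElem?_eq_getElem hlt] at h
    simpa using h
  · rw [List.getD_eq_getElem?_getD, List.getElem?_eq_none hge] at h
    simp at h

theorem inner_spec (e : Nat) (h : inner L e = true) (j : Nat) (hj : j < L.length)
    (hz : Nat.shiftRight (fld 0 e) 7 &&& j = 0) (e' : Nat) (he' : e' ∈ L.getD j []) :
    okq (fld 0 e) (fld 1 e) (fld 2 e) (fld 3 e) e' = true := by
  unfold inner at h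
  rw [force_eq, force_eq, force_eq, force_eq, force_eq] at h
  have h1 := allI_spec _ L 0 h j hj
  rw [Nat.zero_add] at h1
  have h2 : Nat.beq (Nat.land (Nat.shiftRight (fld 0 e) 7) j) 0 = true := by
    rw [land_eq, hz]; rfl
  have h3 : allL (okq (fld 0 e) (fld 1 e) (fld 2 e) (fld 3 e)) (L.getD j []) = true := by
    have h1' : cond (Nat.beq (Nat.land (Nat.shiftRight (fld 0 e) 7) j) 0)
      (allL (okq (fld 0 e) (fld 1 e) (fld 2 e) (fld 3 e)) (L.getD j [])) true = true := h1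
    rw [h2] at h1'
    exact h1'
  exact allL_spec _ _ h3 e' he'

theorem no_pair (B C : Fin 3 → Set (Fin 13))
    (hB : ∀ i, (G.induce (B i)).Connected) (hC : ∀ i, (G.induce (C i)).Connected)
    (hBd : ∀ i j, i ≠ j → Disjoint (B i) (B j)) (hCd : ∀ i j, i ≠ j → Disjoint (C i) (C j))
    (hBn : ∀ i j, i ≠ j → ∀ u ∈ B i, ∀ v ∈ B j, ¬ G.Adj u v)
    (hCn : ∀ i j, i ≠ j → ∀ u ∈ C i, ∀ v ∈ C j, ¬ G.Adj u v)
    (hBC : ∀ i j, Disjoint (B i) (C j))
    (hadj : ∀ i j, ∃ u ∈ B i, ∃ v ∈ C j, G.Adj u v) : False := by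
  obtain ⟨m, e, hm, he, hf, hk⟩ := entry B hB hBd hBn
  obtain ⟨m', e', hm', he', hf', hk'⟩ := entry C hC hCd hCn
  have hmm : m &&& m' = 0 := by
    apply Nat.eq_of_testBit_eq
    intro v
    rw [Nat.zero_testBit, Nat.testBit_and]
    by_contra hc
    rw [Bool.not_eq_false, Bool.and_eq_true] at hc
    have hv := rep_lt hm hc.1
    obtain ⟨i, hi⟩ := (hm.2 ⟨v, hv⟩).1 hc.1
    obtain ⟨j, hj⟩ := (hm'.2 ⟨v, hv⟩).1 hc.2
    exact Set.disjoint_left.1 (hBC i j) hi hj
  -- the entry e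
  obtain ⟨-, a, haL, hea⟩ := mem_getD L he
  have hin : inner L e = true := allL_spec _ _ (allL_spec _ _ pairs_all a haL) e hea
  obtain ⟨hj, -⟩ := mem_getD L he'
  have hz : Nat.shiftRight (fld 0 e) 7 &&& Nat.shiftRight m' 7 = 0 := by
    rw [hf, shr_eq, shr_eq, ← Nat.shiftRight_and_distrib, hmm]
    rfl
  have hok := inner_spec e hin _ hj hz e' he'
  have hue : Nat.land (fld 0 e) e' = 0 := by
    rw [land_eq, hf]
    have h8 : m &&& 8191 = m := by
      have := Nat.and_two_pow_sub_one_of_lt_two_pow (x := m) (n := 13) (by simpa using hm.1)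
      simpa using this
    have h9 : e' &&& 8191 = m' := by
      have h10 : fld 0 e' = e' &&& 8191 := by
        unfold fld
        rfl
      rw [← h10, hf']
    rw [← h8, Nat.and_assoc, Nat.and_comm 8191 e', h9, hmm]
  have key : ∀ k, k = 1 ∨ k = 2 ∨ k = 3 → ∀ k', k' = 1 ∨ k' = 2 ∨ k' = 3 →
      fld k e &&& fld (k' + 3) e' ≠ 0 := by
    intro k hk1 k' hk1'
    obtain ⟨i, hi, hn⟩ := hk k hk1
    obtain ⟨i', hi', -⟩ := hk' k' hk1'
    obtain ⟨u, hu, v, hv, huv⟩ := hadj i i'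
    have h1 : (fld k e).testBit v.val = true := by
      rw [hn]
      exact (nbm_spec _ _).2 ⟨u.val, u.isLt, (hi.2 u).2 hu, huv⟩
    have h2 : (fld (k' + 3) e').testBit v.val = true := (hi'.2 v).2 hv
    apply ne_zero_of_testBit (v := v.val)
    rw [Nat.testBit_and, h1, h2]
    rfl
  unfold okq at hok
  rw [hue] at hok
  have hb : Nat.beq 0 0 = true := rfl
  rw [hb, tst_eq (key 1 (by simp) 1 (by simp)), tst_eq (key 1 (by simp) 2 (by simp)),
    tst_eq (key 1 (by simp) 3 (by simp)), tst_eq (key 2 (by simp) 1 (by simp)),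
    tst_eq (key 2 (by simp) 2 (by simp)), tst_eq (key 2 (by simp) 3 (by simp)),
    tst_eq (key 3 (by simp) 1 (by simp)), tst_eq (key 3 (by simp) 2 (by simp)),
    tst_eq (key 3 (by simp) 3 (by simp))] at hok
  exact absurd hok (by simp)

/-- no K_{3,3} induced minor -/
theorem no_K33 : ¬ ∃ B : Fin 6 → Set (Fin 13),
    (∀ i, (G.induce (B i)).Connected) ∧
    (∀ i j, i ≠ j → Disjoint (B i) (B j)) ∧
    (∀ i j, i ≠ j →
      ((∃ u ∈ B i, ∃ v ∈ B j, G.Adj u v) ↔ ¬ (i.val < 3 ↔ j.val < 3))) := by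
  rintro ⟨B, hc, hd, ha⟩
  have hinj0 : ∀ i j : Fin 3, i ≠ j → (Fin.castAdd 3 i : Fin 6) ≠ Fin.castAdd 3 j := by
    intro i j h h'
    exact h (Fin.castAdd_injective 3 3 h')
  have hinj1 : ∀ i j : Fin 3, i ≠ j → (Fin.natAdd 3 i : Fin 6) ≠ Fin.natAdd 3 j := by
    intro i j h h'
    exact h (Fin.natAdd_injective 3 3 h')
  have hne : ∀ i j : Fin 3, (Fin.castAdd 3 i : Fin 6) ≠ Fin.natAdd 3 j := by decide
  refine no_pair (fun i => B (Fin.castAdd 3 i)) (fun i => B (Fin.natAdd 3 i))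
    (fun i => hc _) (fun i => hc _)
    (fun i j h => hd _ _ (hinj0 i j h)) (fun i j h => hd _ _ (hinj1 i j h)) ?_ ?_
    (fun i j => hd _ _ (hne i j)) ?_
  · intro i j h u hu v hv huv
    have h1 := (ha _ _ (hinj0 i j h)).1 ⟨u, hu, v, hv, huv⟩
    apply h1
    have := i.isLt
    have := j.isLt
    simp
  · intro i j h u hu v hv huv
    have h1 := (ha _ _ (hinj1 i j h)).1 ⟨u, hu, v, hv, huv⟩
    apply h1
    simp
  · intro i j
    refine (ha _ _ (hne i j)).2 ?_
    have := i.isLt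
    have := j.isLt
    simp

theorem no_triangle : ¬ ∃ a b c : Fin 13, G.Adj a b ∧ G.Adj b c ∧ G.Adj a c := by
  rintro ⟨a, b, c, h1, h2, h3⟩
  have h : ∀ a b c : Fin 13, adjb a b = true → adjb b c = true → adjb a c = true → False := by
    decide +kernel
  exact h a b c h1 h2 h3

/-! ### the K_6 minor -/

/-- branch sets, listed from a root so that each vertex is joined to an earlier one -/
def br : Fin 6 → List (Fin 13)
  | 0 => [0]
  | 1 => [1]
  | 2 => [2, 3]
  | 3 => [5, 4, 6]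
  | 4 => [8, 7, 9]
  | 5 => [11, 10, 12]

theorem conn_list (r : Fin 13) (l : List (Fin 13)) (h : ∀ v ∈ l, v = r ∨ G.Adj r v) (hr : r ∈ l) :
    (G.induce {v | v ∈ l}).Connected := by
  rw [SimpleGraph.connected_iff_exists_forall_reachable]
  refine ⟨⟨r, hr⟩, ?_⟩
  rintro ⟨v, hv⟩
  rcases h v hv with rfl | h1
  · exact SimpleGraph.Reachable.refl _
  · exact SimpleGraph.Adj.reachable (by simpa using h1)

theorem has_K6 : ∃ B : Fin 6 → Set (Fin 13),
    (∀ i, (G.induce (B i)).Connected) ∧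
    (∀ i j, i ≠ j → Disjoint (B i) (B j)) ∧
    (∀ i j, i ≠ j → ∃ u ∈ B i, ∃ v ∈ B j, G.Adj u v) := by
  refine ⟨fun i => {v | v ∈ br i}, ?_, ?_, ?_⟩
  · intro i
    have h : ∀ i : Fin 6, ∃ r ∈ br i, ∀ v ∈ br i, v = r ∨ adjb r v = true := by
      decide +kernel
    obtain ⟨r, hr, h2⟩ := h i
    exact conn_list r (br i) h2 hr
  · intro i j hij
    rw [Set.disjoint_left]
    have h : ∀ i j : Fin 6, i ≠ j → ∀ v ∈ br i, v ∉ br j := by decide +kernel
    exact h i j hij
  · intro i j hij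
    have h : ∀ i j : Fin 6, i ≠ j → ∃ u ∈ br i, ∃ v ∈ br j, adjb u v = true := by decide +kernel
    exact h i j hij

end Pool.Agent.W127.K33F
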