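import Mathlib

set_option autoImplicit false

/-!
A graph on ten vertices without induced theta, prism or even wheel (an odd signable graph) which has
`K_{3,3}` as an induced minor. Found by helper127 with a counterexample-guided search (cadical).
-/

namespace Pool.Agent.W127.OddSign

/-- adjacency of the ten vertex graph -/
def A (i j : Fin 10) : Bool := Nat.testBit 342311077833116388906313552288 (10 * i.val + j.val)

/-- the graph -/
def G : SimpleGraph (Fin 10) where
  Adj i j := A i j = true
  symm := ⟨by decide +kernel⟩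
  loopless := ⟨by decide +kernel⟩

theorem adj_iff (i j : Fin 10) : G.Adj i j ↔ A i j = true := Iff.rfl

/-- neighbours of `v` in the set `s` -/
def nb (s : Fin 10 → Bool) (v : Fin 10) : Finset (Fin 10) :=
  Finset.univ.filter (fun u => A v u = true ∧ s u = true)

theorem mem_nb (s : Fin 10 → Bool) (v u : Fin 10) : u ∈ nb s v ↔ A v u = true ∧ s u = true := by
  simp [nb]

def OkDeg (s : Fin 10 → Bool) : Prop := ∀ v, s v = true → (nb s v).card = 2 ∨ (nb s v).card = 3

def BadT (s : Fin 10 → Bool) : Prop := OkDeg s ∧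
  ∃ a b, s a = true ∧ s b = true ∧ A a b = false ∧ a ≠ b ∧ (nb s a).card = 3 ∧ (nb s b).card = 3 ∧
    ∀ v, s v = true → v = a ∨ v = b ∨ (nb s v).card = 2

def Tri (s : Fin 10 → Bool) (v u w : Fin 10) : Prop :=
  A v u = true ∧ A v w = true ∧ s u = true ∧
    s w = true ∧ A u w = true ∧ (nb s u).card = 3 ∧ (nb s w).card = 3 ∧
    ∀ x, A v x = true → s x = true → x = u ∨ x = w ∨ (A x u = false ∧ A x w = false)

def BadP (s : Fin 10 → Bool) : Prop := OkDeg s ∧ (∃ v, s v = true ∧ (nb s v).card = 3) ∧
  ∀ v, s v = true → (nb s v).card = 3 → ∃ u w, Tri s v u w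

def BadW (s : Fin 10 → Bool) : Prop := (∀ v, s v = true → (nb s v).card = 2) ∧
  ∃ c, s c = false ∧ 3 ≤ (nb s c).card ∧ (nb s c).card % 2 = 0

instance (s : Fin 10 → Bool) : Decidable (OkDeg s) := by unfold OkDeg; infer_instance
instance (s : Fin 10 → Bool) : Decidable (BadT s) := by unfold BadT; infer_instance
instance (s : Fin 10 → Bool) (v u w : Fin 10) : Decidable (Tri s v u w) := by
  unfold Tri; infer_instance
instance (s : Fin 10 → Bool) : Decidable (BadP s) := by unfold BadP; infer_instance
instance (s : Fin 10 → Bool) : Decidable (BadW s) := by unfold BadW; infer_instance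

/-- the set with code `m` -/
def bit (m : ℕ) (u : Fin 10) : Bool := Nat.testBit m u.val

theorem noBad_all : ∀ m < 1024, ¬ BadT (bit m) ∧ ¬ BadP (bit m) ∧ ¬ BadW (bit m) := by
  decide +kernel

theorem noBad (s : Fin 10 → Bool) : ¬ BadT s ∧ ¬ BadP s ∧ ¬ BadW s := by
  have h : bit (Nat.ofBits s) = s := by
    funext u
    unfold bit
    rw [Nat.testBit_ofBits_lt _ _ u.isLt]
  have := noBad_all (Nat.ofBits s) (Nat.ofBits_lt_two_pow s)
  rwa [h] at this

end Pool.Agent.W127.OddSign
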