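import Mathlib

set_option autoImplicit false

namespace Pool.Agent.W127.Frank

open Finset

variable {n : ℕ}

/-- `x` and `-x` both satisfy the constraints `x(S) ≤ b(S)`. -/
def InK (b : Finset (Fin n) → ℤ) (x : Fin n → ℤ) : Prop :=
  ∀ S : Finset (Fin n), ∑ i ∈ S, x i ≤ b S ∧ -(∑ i ∈ S, x i) ≤ b S

theorem tight_ui {b : Finset (Fin n) → ℤ}
    (hs : ∀ A B : Finset (Fin n), b (A ∪ B) + b (A ∩ B) ≤ b A + b B)
    {x : Fin n → ℤ} (hx : InK b x) {A B : Finset (Fin n)}
    (hA : ∑ i ∈ A, x i = b A) (hB : ∑ i ∈ B, x i = b B) :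
    ∑ i ∈ A ∪ B, x i = b (A ∪ B) ∧ ∑ i ∈ A ∩ B, x i = b (A ∩ B) := by
  have h1 := (hx (A ∪ B)).1
  have h2 := (hx (A ∩ B)).1
  have h3 := Finset.sum_union_inter (s₁ := A) (s₂ := B) (f := x)
  have h4 := hs A B
  constructor <;> linarith

theorem lemX {b : Finset (Fin n) → ℤ} (hb0 : b ∅ = 0)
    (hs : ∀ A B : Finset (Fin n), b (A ∪ B) + b (A ∩ B) ≤ b A + b B)
    {x : Fin n → ℤ} (hx : InK b x)
    (hcov : ∀ i, x i = 0 → ∃ S, ∑ k ∈ S, x k = b S ∧ i ∈ S)
    (hsep : ∀ i j, i ≠ j → x i = 0 → x j = 0 → ∃ S, ∑ k ∈ S, x k = b S ∧ ¬ (i ∈ S ↔ j ∈ S))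
    (d : Fin n → ℝ) (hd : ∀ S, ∑ k ∈ S, x k = b S → ∑ k ∈ S, d k = 0)
    (hd0 : ∀ i, x i ≠ 0 → d i = 0) : ∀ i, d i = 0 := by
  intro u
  by_cases hu : x u = 0
  swap
  · exact hd0 u hu
  classical
  -- minimal tight set containing u
  obtain ⟨T, hT, hTmin⟩ := Finset.exists_min_image
    (Finset.univ.filter (fun S : Finset (Fin n) => ∑ k ∈ S, x k = b S ∧ u ∈ S))
    (fun S => S.card) (by
      obtain ⟨S, h1, h2⟩ := hcov u hu
      exact ⟨S, by simp [h1, h2]⟩)
  simp only [Finset.mem_filter, Finset.mem_univ, true_and] at hT hTmin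
  have hTsub : ∀ S, ∑ k ∈ S, x k = b S → u ∈ S → T ⊆ S := by
    intro S h1 h2
    have h3 := (tight_ui hs hx hT.1 h1).2
    have h4 := hTmin (T ∩ S) ⟨h3, Finset.mem_inter.2 ⟨hT.2, h2⟩⟩
    have h5 : T ∩ S = T := Finset.eq_of_subset_of_card_le Finset.inter_subset_left h4
    exact Finset.inter_eq_left.1 h5
  obtain ⟨T', hT', hTmax⟩ := Finset.exists_max_image
    (Finset.univ.filter (fun S : Finset (Fin n) => ∑ k ∈ S, x k = b S ∧ u ∉ S ∧ S ⊆ T))
    (fun S => S.card) ⟨∅, by simp [hb0]⟩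
  simp only [Finset.mem_filter, Finset.mem_univ, true_and] at hT' hTmax
  obtain ⟨hT'1, hT'2, hT'3⟩ := hT'
  have hkey : ∀ v ∈ T.erase u, v ∉ T' → d v = 0 := by
    intro v hv hvT'
    have hvu : v ≠ u := (Finset.mem_erase.1 hv).1
    have hvT : v ∈ T := (Finset.mem_erase.1 hv).2
    by_cases hxv : x v = 0
    swap
    · exact hd0 v hxv
    exfalso
    obtain ⟨S, h1, h2⟩ := hsep u v (Ne.symm hvu) hu hxv
    have huS : u ∉ S := by
      intro huS
      exact h2 ⟨fun _ => hTsub S h1 huS hvT, fun _ => huS⟩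
    have hvS : v ∈ S := by
      by_contra hvS
      exact h2 ⟨fun h => absurd h huS, fun h => absurd h hvS⟩
    have h3 := (tight_ui hs hx hT.1 h1).2
    have h4 := (tight_ui hs hx hT'1 h3).1
    have h5 := hTmax (T' ∪ (T ∩ S)) ⟨h4, by
      simp only [Finset.mem_union, Finset.mem_inter, not_or, not_and]
      exact ⟨hT'2, fun _ => huS⟩, Finset.union_subset hT'3 Finset.inter_subset_left⟩
    have h6 : T' = T' ∪ (T ∩ S) := Finset.eq_of_subset_of_card_le Finset.subset_union_left h5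
    apply hvT'
    rw [h6]
    exact Finset.mem_union_right _ (Finset.mem_inter.2 ⟨hvT, hvS⟩)
  have hsub : T' ⊆ T.erase u := by
    intro v hv
    refine Finset.mem_erase.2 ⟨?_, hT'3 hv⟩
    rintro rfl
    exact hT'2 hv
  have e1 : ∑ k ∈ T', d k = ∑ k ∈ T.erase u, d k := Finset.sum_subset hsub hkey
  have e2 := hd T' hT'1
  have e3 := hd T hT.1
  have e4 := Finset.add_sum_erase T d hT.2
  linarith

/-- Extremality criterion. -/
theorem crit (f : Finset (Fin n) → ℤ) (hf0 : f ∅ = 0)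
    (hsub : ∀ A B : Finset (Fin n), f (A ∪ B) + f (A ∩ B) ≤ f A + f B)
    (h2 : ∀ e : Fin n, f {e} ≤ 2)
    (x : Fin n → ℤ) (hx : InK (fun S => f S - (S.card : ℤ)) x)
    (hcov : ∀ i, x i = 0 → ∃ S, ∑ k ∈ S, x k = f S - (S.card : ℤ) ∧ i ∈ S)
    (hsep : ∀ i j, i ≠ j → x i = 0 → x j = 0 →
      ∃ S, ∑ k ∈ S, x k = f S - (S.card : ℤ) ∧ ¬ (i ∈ S ↔ j ∈ S)) :
    ∃ v ∈ Set.extremePoints ℝ
          {x : Fin n → ℝ | (∀ i, 0 ≤ x i) ∧
            ∀ A : Finset (Fin n), ∑ i ∈ A, x i ≤ (f A : ℝ)},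
        (∀ i, 0 ≤ 2 - v i) ∧
          ∀ A : Finset (Fin n), ∑ i ∈ A, (2 - v i) ≤ (f A : ℝ) := by
  have hbs : ∀ A B : Finset (Fin n), (fun S : Finset (Fin n) => f S - (S.card : ℤ)) (A ∪ B)
      + (fun S : Finset (Fin n) => f S - (S.card : ℤ)) (A ∩ B)
      ≤ (fun S : Finset (Fin n) => f S - (S.card : ℤ)) A
      + (fun S : Finset (Fin n) => f S - (S.card : ℤ)) B := by
    intro A B
    have h1 := hsub A B
    have h2 := Finset.card_union_add_card_inter A B
    simp only
    have h3 : ((A ∪ B).card : ℤ) + ((A ∩ B).card : ℤ) = A.card + B.card := by exact_mod_cast h2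
    linarith
  have hx1 : ∀ i, x i ≤ 1 := by
    intro i
    have h := (hx {i}).1
    have h3 := h2 i
    simp at h
    linarith
  have hx2 : ∀ i, -1 ≤ x i := by
    intro i
    have h := (hx {i}).2
    have h3 := h2 i
    simp at h
    linarith
  set v : Fin n → ℝ := fun i => ((1 + x i : ℤ) : ℝ) with hv
  have hvsum : ∀ A : Finset (Fin n), ∑ i ∈ A, v i = (A.card : ℝ) + ((∑ i ∈ A, x i : ℤ) : ℝ) := by
    intro A
    simp [hv, Finset.sum_add_distrib]
  refine ⟨v, ?_, ?_, ?_⟩
  · rw [mem_extremePoints]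
    have hvmem : v ∈ {x : Fin n → ℝ | (∀ i, 0 ≤ x i) ∧
            ∀ A : Finset (Fin n), ∑ i ∈ A, x i ≤ (f A : ℝ)} := by
      refine ⟨fun i => ?_, fun A => ?_⟩
      · have := hx2 i
        simp only [hv]
        exact_mod_cast (by linarith : (0:ℤ) ≤ 1 + x i)
      · rw [hvsum]
        have := (hx A).1
        have h' : (A.card : ℤ) + ∑ i ∈ A, x i ≤ f A := by linarith
        exact_mod_cast h'
    refine ⟨hvmem, ?_⟩
    intro x₁ hx₁ x₂ hx₂ hseg
    obtain ⟨p, q, hp, hq, hpq, hpv⟩ := hseg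
    have hlin : ∀ i, p * x₁ i + q * x₂ i = v i := by
      intro i
      have := congrFun hpv i
      simpa using this
    have htight : ∀ S : Finset (Fin n), ∑ k ∈ S, x k = f S - (S.card : ℤ) →
        ∑ k ∈ S, x₁ k = ∑ k ∈ S, v k ∧ ∑ k ∈ S, x₂ k = ∑ k ∈ S, v k := by
      intro S hS
      have e1 : ∑ k ∈ S, v k = (f S : ℝ) := by
        rw [hvsum, hS]; push_cast; ring
      have e2 : p * ∑ k ∈ S, x₁ k + q * ∑ k ∈ S, x₂ k = ∑ k ∈ S, v k := by
        rw [Finset.mul_sum, Finset.mul_sum, ← Finset.sum_add_distrib]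
        exact Finset.sum_congr rfl (fun i _ => hlin i)
      have e3 := hx₁.2 S
      have e4 := hx₂.2 S
      rw [e1] at e2 ⊢
      constructor
      · have h5 : q * ((f S : ℝ) - ∑ k ∈ S, x₂ k) ≥ 0 := mul_nonneg hq.le (by linarith)
        have h6 : p * ((f S : ℝ) - ∑ k ∈ S, x₁ k) ≥ 0 := mul_nonneg hp.le (by linarith)
        have h7 : p * ((f S : ℝ) - ∑ k ∈ S, x₁ k) + q * ((f S : ℝ) - ∑ k ∈ S, x₂ k) = 0 := by
          have : p * ((f S : ℝ) - ∑ k ∈ S, x₁ k) + q * ((f S : ℝ) - ∑ k ∈ S, x₂ k)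
            = (p + q) * (f S : ℝ) - (p * ∑ k ∈ S, x₁ k + q * ∑ k ∈ S, x₂ k) := by ring
          rw [this, hpq, e2]; ring
        have h8 : p * ((f S : ℝ) - ∑ k ∈ S, x₁ k) = 0 := by linarith
        rcases mul_eq_zero.1 h8 with h | h
        · linarith
        · linarith
      · have h5 : q * ((f S : ℝ) - ∑ k ∈ S, x₂ k) ≥ 0 := mul_nonneg hq.le (by linarith)
        have h6 : p * ((f S : ℝ) - ∑ k ∈ S, x₁ k) ≥ 0 := mul_nonneg hp.le (by linarith)
        have h7 : p * ((f S : ℝ) - ∑ k ∈ S, x₁ k) + q * ((f S : ℝ) - ∑ k ∈ S, x₂ k) = 0 := by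
          have : p * ((f S : ℝ) - ∑ k ∈ S, x₁ k) + q * ((f S : ℝ) - ∑ k ∈ S, x₂ k)
            = (p + q) * (f S : ℝ) - (p * ∑ k ∈ S, x₁ k + q * ∑ k ∈ S, x₂ k) := by ring
          rw [this, hpq, e2]; ring
        have h8 : q * ((f S : ℝ) - ∑ k ∈ S, x₂ k) = 0 := by linarith
        rcases mul_eq_zero.1 h8 with h | h
        · linarith
        · linarith
    have hd : ∀ i, x₁ i - v i = 0 := by
      apply lemX (b := fun S => f S - (S.card : ℤ)) (by simp [hf0]) hbs hx hcov hsep
        (fun i => x₁ i - v i)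
      · intro S hS
        have := (htight S hS).1
        rw [Finset.sum_sub_distrib, this, sub_self]
      · intro i hi
        have hcase : x i = -1 ∨ x i = 1 := by
          have a1 := hx1 i
          have a2 := hx2 i
          omega
        rcases hcase with h | h
        · have e1 : v i = 0 := by simp [hv, h]
          have e2 := hlin i
          rw [e1] at e2
          have e3 := hx₁.1 i
          have e4 := hx₂.1 i
          have e5 : p * x₁ i = 0 := by
            have := mul_nonneg hp.le e3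
            have := mul_nonneg hq.le e4
            linarith
          rcases mul_eq_zero.1 e5 with h' | h'
          · linarith
          · simp only [h', e1, sub_zero]
        · have e1 := (hx {i}).1
          have e2 := h2 i
          simp only [Finset.sum_singleton, Finset.card_singleton, Nat.cast_one] at e1
          have e3 := (htight {i} (by
            simp only [Finset.sum_singleton, Finset.card_singleton, Nat.cast_one]
            linarith)).1
          simp only [Finset.sum_singleton] at e3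
          simp only [e3, sub_self]
    have hx1v : x₁ = v := by
      funext i
      have := hd i
      linarith
    first
      | exact hx1v
      | (refine ⟨hx1v, ?_⟩
         funext i
         have e2 := hlin i
         rw [hx1v] at e2
         have e3 : q * (x₂ i - v i) = 0 := by
           have : q * (x₂ i - v i) = (p * v i + q * x₂ i) - (p + q) * v i := by ring
           rw [this, hpq, e2]; ring
         rcases mul_eq_zero.1 e3 with h' | h'
         · linarith
         · linarith)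
  · intro i
    have := hx1 i
    have h' : (0:ℤ) ≤ 2 - (1 + x i) := by linarith
    simp only [hv]
    exact_mod_cast h'
  · intro A
    have h := (hx A).2
    have h' : (A.card : ℤ) - ∑ i ∈ A, x i ≤ f A := by linarith
    have e : ∑ i ∈ A, (2 - v i) = (A.card : ℝ) - ((∑ i ∈ A, x i : ℤ) : ℝ) := by
      rw [Finset.sum_sub_distrib, hvsum]
      simp
      ring
    rw [e]
    exact_mod_cast h'

end Pool.Agent.W127.Frank
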