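import Mathlib

set_option autoImplicit false

namespace Pool.Agent.W127.Frank

open Finset

variable {n : ℕ}

/-- Some pair of `Q` lies in no common set of value 1 inside `Q`. -/
theorem ntpair (R : Finset (Fin n)) (h : Finset (Fin n) → ℤ)
    (hsub : ∀ A B, A ⊆ R → B ⊆ R → h (A ∪ B) + h (A ∩ B) ≤ h A + h B)
    (hpos : ∀ A, A ⊆ R → A.Nonempty → A ≠ R → 1 ≤ h A)
    (Q : Finset (Fin n)) (hQR : Q ⊆ R) (hQne : Q ≠ R) (hQ : h Q ≠ 1)
    (hall : ∀ c ∈ Q, ∀ c' ∈ Q, c ≠ c' → ∃ X, X ⊆ Q ∧ c ∈ X ∧ c' ∈ X ∧ h X = 1)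
    (c c' : Fin n) (hc : c ∈ Q) (hc' : c' ∈ Q) (hcc : c ≠ c') : False := by
  classical
  obtain ⟨X0, hX0, hX0max⟩ := Finset.exists_max_image
    (Finset.univ.filter (fun X : Finset (Fin n) => X ⊆ Q ∧ c ∈ X ∧ h X = 1))
    (fun X => X.card) (by
      obtain ⟨X, h1, h2, h3, h4⟩ := hall c hc c' hc' hcc
      exact ⟨X, by simp [h1, h2, h4]⟩)
  simp only [Finset.mem_filter, Finset.mem_univ, true_and] at hX0 hX0max
  obtain ⟨hX01, hX02, hX03⟩ := hX0
  have hQX : Q ⊆ X0 := by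
    intro d hd
    by_cases hdc : c = d
    · rw [← hdc]; exact hX02
    obtain ⟨Y, h1, h2, h3, h4⟩ := hall c hc d hd hdc
    have hU : X0 ∪ Y ⊆ Q := Finset.union_subset hX01 h1
    have hne : X0 ∪ Y ≠ R := by
      intro h5
      apply hQne
      exact Finset.Subset.antisymm hQR (h5 ▸ hU)
    have hI : X0 ∩ Y ⊆ Q := Finset.inter_subset_left.trans hX01
    have hIne : X0 ∩ Y ≠ R := by
      intro h5
      apply hQne
      exact Finset.Subset.antisymm hQR (h5 ▸ hI)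
    have e1 := hpos (X0 ∪ Y) (hU.trans hQR) ⟨c, Finset.mem_union_left _ hX02⟩ hne
    have e2 := hpos (X0 ∩ Y) (hI.trans hQR) ⟨c, Finset.mem_inter.2 ⟨hX02, h2⟩⟩ hIne
    have e3 := hsub X0 Y (hX01.trans hQR) (h1.trans hQR)
    have e4 : h (X0 ∪ Y) = 1 := by linarith
    have e5 := hX0max (X0 ∪ Y) ⟨hU, Finset.mem_union_left _ hX02, e4⟩
    have e6 : X0 = X0 ∪ Y := Finset.eq_of_subset_of_card_le Finset.subset_union_left e5
    rw [e6]
    exact Finset.mem_union_right _ h3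
  apply hQ
  rw [Finset.Subset.antisymm hQX hX01]
  exact hX03

/-- The relation lying in a common set of value 1 inside `Q` is transitive. -/
theorem trans1 (R : Finset (Fin n)) (h : Finset (Fin n) → ℤ)
    (hsub : ∀ A B, A ⊆ R → B ⊆ R → h (A ∪ B) + h (A ∩ B) ≤ h A + h B)
    (hpos : ∀ A, A ⊆ R → A.Nonempty → A ≠ R → 1 ≤ h A)
    (Q : Finset (Fin n)) (hQR : Q ⊆ R) (hQne : Q ≠ R)
    (c d e : Fin n) (h1 : ∃ X, X ⊆ Q ∧ c ∈ X ∧ d ∈ X ∧ h X = 1)
    (h2 : ∃ X, X ⊆ Q ∧ d ∈ X ∧ e ∈ X ∧ h X = 1) :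
    ∃ X, X ⊆ Q ∧ c ∈ X ∧ e ∈ X ∧ h X = 1 := by
  classical
  obtain ⟨X, a1, a2, a3, a4⟩ := h1
  obtain ⟨Y, b1, b2, b3, b4⟩ := h2
  refine ⟨X ∪ Y, Finset.union_subset a1 b1, Finset.mem_union_left _ a2,
    Finset.mem_union_right _ b3, ?_⟩
  have hU : X ∪ Y ⊆ Q := Finset.union_subset a1 b1
  have hI : X ∩ Y ⊆ Q := Finset.inter_subset_left.trans a1
  have hne : ∀ W, W ⊆ Q → W ≠ R := by
    intro W hW h5
    apply hQne
    exact Finset.Subset.antisymm hQR (h5 ▸ hW)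
  have e1 := hpos (X ∪ Y) (hU.trans hQR) ⟨d, Finset.mem_union_left _ a3⟩ (hne _ hU)
  have e2 := hpos (X ∩ Y) (hI.trans hQR) ⟨d, Finset.mem_inter.2 ⟨a3, b2⟩⟩ (hne _ hI)
  have e3 := hsub X Y (a1.trans hQR) (b1.trans hQR)
  linarith

/-- Two symmetric transitive relations covering all pairs: one of them covers all pairs. -/
theorem two_rel {α : Type*} (Q : Set α) (r s : α → α → Prop)
    (rsymm : ∀ a b, r a b → r b a) (ssymm : ∀ a b, s a b → s b a)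
    (rtr : ∀ a b c, r a b → r b c → r a c) (str : ∀ a b c, s a b → s b c → s a c)
    (hall : ∀ a ∈ Q, ∀ b ∈ Q, a ≠ b → r a b ∨ s a b) :
    (∀ a ∈ Q, ∀ b ∈ Q, a ≠ b → r a b) ∨ (∀ a ∈ Q, ∀ b ∈ Q, a ≠ b → s a b) := by
  by_contra hcon
  push Not at hcon
  obtain ⟨⟨c, hc, d, hd, hcd, hrcd⟩, ⟨e, he, f, hf, hef, hsef⟩⟩ := hcon
  have hscd : s c d := (hall c hc d hd hcd).resolve_left hrcd
  have key : ∀ e ∈ Q, s e c ∨ e = c := by
    intro e he
    by_cases hec : e = c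
    · exact Or.inr hec
    left
    by_cases hed : e = d
    · rw [hed]; exact ssymm _ _ hscd
    rcases hall e he c hc hec with h1 | h1
    · rcases hall e he d hd hed with h2 | h2
      · exact absurd (rtr _ _ _ (rsymm _ _ h1) h2) hrcd
      · exact str _ _ _ h2 (ssymm _ _ hscd)
    · exact h1
  apply hsef
  rcases key e he with h1 | h1
  · rcases key f hf with h2 | h2
    · exact str _ _ _ h1 (ssymm _ _ h2)
    · rw [h2]; exact h1
  · rcases key f hf with h2 | h2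
    · rw [h1]; exact ssymm _ _ h2
    · exact absurd (h1.trans h2.symm) hef

/-- Pair lemma. -/
theorem pairLem (R : Finset (Fin n)) (g : Finset (Fin n) → ℤ)
    (hsub : ∀ A B, A ⊆ R → B ⊆ R → g (A ∪ B) + g (A ∩ B) ≤ g A + g B)
    (hpos : ∀ A, A ⊆ R → A.Nonempty → A ≠ R → 1 ≤ g A)
    (hsing : ∀ c ∈ R, g {c} ≤ 1) (hemp : g ∅ = 0)
    (Q : Finset (Fin n)) (hQR : Q ⊆ R) (hQne : Q ≠ R) (hQ : g Q = 2) (hQ' : g (R \ Q) = 2) :
    ∃ c c', c ∈ Q ∧ c' ∈ Q ∧ c ≠ c' ∧ (∀ X, X ⊆ Q → c ∈ X → c' ∈ X → g X ≠ 1) ∧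
      (∀ X, X ⊆ Q → c ∈ X → c' ∈ X → g (R \ X) ≠ 1) := by
  classical
  by_contra hcon
  push Not at hcon
  -- dual function
  have hsubd : ∀ A B, A ⊆ R → B ⊆ R →
      (fun X => g (R \ X)) (A ∪ B) + (fun X => g (R \ X)) (A ∩ B)
        ≤ (fun X => g (R \ X)) A + (fun X => g (R \ X)) B := by
    intro A B _ _
    have h1 := hsub (R \ A) (R \ B) Finset.sdiff_subset Finset.sdiff_subset
    have h2 : R \ (A ∪ B) = (R \ A) ∩ (R \ B) := by
      ext t; simp only [Finset.mem_sdiff, Finset.mem_union, Finset.mem_inter]; tauto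
    have h3 : R \ (A ∩ B) = (R \ A) ∪ (R \ B) := by
      ext t; simp only [Finset.mem_sdiff, Finset.mem_union, Finset.mem_inter]; tauto
    simp only [h2, h3]
    linarith
  have hposd : ∀ A, A ⊆ R → A.Nonempty → A ≠ R → 1 ≤ (fun X => g (R \ X)) A := by
    intro A hA hAne hAR
    apply hpos (R \ A) Finset.sdiff_subset
    · rw [Finset.sdiff_nonempty]
      intro h
      exact hAR (Finset.Subset.antisymm hA h)
    · intro h
      obtain ⟨t, ht⟩ := hAne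
      have h2 : t ∈ R \ A := by rw [h]; exact hA ht
      exact (Finset.mem_sdiff.1 h2).2 ht
  -- two distinct elements of Q
  have hQnon : Q.Nonempty := by
    rw [Finset.nonempty_iff_ne_empty]
    rintro rfl
    rw [hemp] at hQ
    norm_num at hQ
  obtain ⟨c, hc⟩ := hQnon
  have hex : ∃ c' ∈ Q, c' ≠ c := by
    by_contra h
    push Not at h
    have h1 : Q = {c} := by
      ext t
      simp only [Finset.mem_singleton]
      exact ⟨fun ht => h t ht, fun ht => ht ▸ hc⟩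
    have h2 := hsing c (hQR hc)
    rw [← h1, hQ] at h2
    norm_num at h2
  obtain ⟨c', hc', hcc'⟩ := hex
  have hdich := two_rel (Q : Set (Fin n))
    (fun a b => ∃ X, X ⊆ Q ∧ a ∈ X ∧ b ∈ X ∧ g X = 1)
    (fun a b => ∃ X, X ⊆ Q ∧ a ∈ X ∧ b ∈ X ∧ (fun X => g (R \ X)) X = 1)
    (fun a b ⟨X, h1, h2, h3, h4⟩ => ⟨X, h1, h3, h2, h4⟩)
    (fun a b ⟨X, h1, h2, h3, h4⟩ => ⟨X, h1, h3, h2, h4⟩)
    (fun a b d h1 h2 => trans1 R g hsub hpos Q hQR hQne a b d h1 h2)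
    (fun a b d h1 h2 => trans1 R _ hsubd hposd Q hQR hQne a b d h1 h2)
    (by
      intro a ha b hb hab
      by_cases h1 : ∀ X, X ⊆ Q → a ∈ X → b ∈ X → g X ≠ 1
      · right
        obtain ⟨X, hX⟩ := hcon a b (Finset.mem_coe.1 ha) (Finset.mem_coe.1 hb) hab h1
        exact ⟨X, hX.1, hX.2.1, hX.2.2.1, hX.2.2.2⟩
      · left
        push Not at h1
        obtain ⟨X, hX⟩ := h1
        exact ⟨X, hX.1, hX.2.1, hX.2.2.1, hX.2.2.2⟩)
  rcases hdich with h | h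
  · exact ntpair R g hsub hpos Q hQR hQne (by rw [hQ]; norm_num)
      (fun a ha b hb hab => h a (Finset.mem_coe.2 ha) b (Finset.mem_coe.2 hb) hab)
      c c' hc hc' (Ne.symm hcc')
  · exact ntpair R _ hsubd hposd Q hQR hQne (by simp only [hQ']; norm_num)
      (fun a ha b hb hab => h a (Finset.mem_coe.2 ha) b (Finset.mem_coe.2 hb) hab)
      c c' hc hc' (Ne.symm hcc')

/-- Half of the crux argument. -/
theorem half (R : Finset (Fin n)) (g : Finset (Fin n) → ℤ)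
    (hsub : ∀ A B, A ⊆ R → B ⊆ R → g (A ∪ B) + g (A ∩ B) ≤ g A + g B)
    (hpos : ∀ A, A ⊆ R → A.Nonempty → A ≠ R → 1 ≤ g A)
    (C : Finset (Fin n)) (hCR : C ⊆ R) (hCne : C ≠ R) (hC : g C = 2)
    (a a' c c' : Fin n) (ha : a ∈ C) (_ha' : a' ∈ C) (hc : c ∈ R \ C) (hc' : c' ∈ R \ C)
    (h1 : ∀ X, X ⊆ C → a ∈ X → a' ∈ X → g X ≠ 1)
    (h2 : ∀ X, X ⊆ R \ C → c ∈ X → c' ∈ X → g (R \ X) ≠ 1)
    (X : Finset (Fin n)) (hX : X ⊆ R) (haX : a ∈ X) (ha'X : a' ∈ X)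
    (hcX : c ∉ X) (hc'X : c' ∉ X) : 2 ≤ g X := by
  classical
  have hcR := (Finset.mem_sdiff.1 hc).1
  have hcC := (Finset.mem_sdiff.1 hc).2
  have hc'R := (Finset.mem_sdiff.1 hc').1
  have hc'C := (Finset.mem_sdiff.1 hc').2
  by_contra hlt
  have e0 := hsub X C hX hCR
  have hI : X ∩ C ⊆ C := Finset.inter_subset_right
  have hIne : X ∩ C ≠ R := by
    intro h5
    apply hCne
    exact Finset.Subset.antisymm hCR (h5 ▸ hI)
  have e1 := hpos (X ∩ C) (hI.trans hCR) ⟨a, Finset.mem_inter.2 ⟨haX, ha⟩⟩ hIne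
  have e2 := h1 (X ∩ C) hI (Finset.mem_inter.2 ⟨haX, ha⟩) (Finset.mem_inter.2 ⟨ha'X, _ha'⟩)
  have hUR : X ∪ C ⊆ R := Finset.union_subset hX hCR
  have hUne : X ∪ C ≠ R := by
    intro h5
    have : c ∈ X ∪ C := by rw [h5]; exact hcR
    rcases Finset.mem_union.1 this with h | h
    · exact hcX h
    · exact hcC h
  have e3 := hpos (X ∪ C) hUR ⟨a, Finset.mem_union_left _ haX⟩ hUne
  have e4 : g (X ∪ C) = 1 := by omega
  have e5 := h2 (R \ (X ∪ C)) (by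
      intro t ht
      simp only [Finset.mem_sdiff, Finset.mem_union, not_or] at ht ⊢
      exact ⟨ht.1, ht.2.2⟩)
    (by simp only [Finset.mem_sdiff, Finset.mem_union, not_or]; exact ⟨hcR, hcX, hcC⟩)
    (by simp only [Finset.mem_sdiff, Finset.mem_union, not_or]; exact ⟨hc'R, hc'X, hc'C⟩)
  apply e5
  rw [Finset.sdiff_sdiff_eq_self hUR]
  exact e4

/-- In a crux function with values at most 2 and no rank two vector, every set or its
complement has value 1. -/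
theorem crux (R : Finset (Fin n)) (g : Finset (Fin n) → ℤ)
    (hsub : ∀ A B, A ⊆ R → B ⊆ R → g (A ∪ B) + g (A ∩ B) ≤ g A + g B)
    (hpos : ∀ A, A ⊆ R → A.Nonempty → A ≠ R → 1 ≤ g A)
    (h2 : ∀ A, A ⊆ R → g A ≤ 2)
    (hsing : ∀ c ∈ R, g {c} ≤ 1) (hemp : g ∅ = 0)
    (hno : ∀ a a' c c' : Fin n, a ∈ R → a' ∈ R → c ∈ R → c' ∈ R → a ≠ a' → c ≠ c' →
      a ≠ c → a ≠ c' → a' ≠ c → a' ≠ c' →
      (∀ X, X ⊆ R → a ∈ X → a' ∈ X → c ∉ X → c' ∉ X → 2 ≤ g X) →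
      (∀ X, X ⊆ R → c ∈ X → c' ∈ X → a ∉ X → a' ∉ X → 2 ≤ g X) → False)
    (C : Finset (Fin n)) (hCR : C ⊆ R) (hCnon : C.Nonempty) (hCne : C ≠ R)
    (hC1 : g C ≠ 1) : g (R \ C) = 1 := by
  classical
  by_contra hC2
  have hC'R : R \ C ⊆ R := Finset.sdiff_subset
  have hC'non : (R \ C).Nonempty := by
    rw [Finset.sdiff_nonempty]
    intro h
    exact hCne (Finset.Subset.antisymm hCR h)
  have hC'ne : R \ C ≠ R := by
    intro h
    obtain ⟨t, ht⟩ := hCnon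
    have h2 : t ∈ R \ C := by rw [h]; exact hCR ht
    exact (Finset.mem_sdiff.1 h2).2 ht
  have e1 := hpos C hCR hCnon hCne
  have e2 := h2 C hCR
  have e3 := hpos (R \ C) hC'R hC'non hC'ne
  have e4 := h2 (R \ C) hC'R
  have hC : g C = 2 := by omega
  have hC' : g (R \ C) = 2 := by omega
  have hss : R \ (R \ C) = C := Finset.sdiff_sdiff_eq_self hCR
  obtain ⟨a, a', ha, ha', haa, p1, p2⟩ :=
    pairLem R g hsub hpos hsing hemp C hCR hCne hC hC'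
  obtain ⟨c, c', hc, hc', hcc, q1, q2⟩ :=
    pairLem R g hsub hpos hsing hemp (R \ C) hC'R hC'ne hC' (by rw [hss]; exact hC)
  have hcC := (Finset.mem_sdiff.1 hc).2
  have hc'C := (Finset.mem_sdiff.1 hc').2
  apply hno a a' c c' (hCR ha) (hCR ha') (hC'R hc) (hC'R hc') haa hcc
  · rintro rfl; exact hcC ha
  · rintro rfl; exact hc'C ha
  · rintro rfl; exact hcC ha'
  · rintro rfl; exact hc'C ha'
  · intro X hX x1 x2 x3 x4
    exact half R g hsub hpos C hCR hCne hC a a' c c' ha ha' hc hc' p1 q2 X hX x1 x2 x3 x4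
  · intro X hX x1 x2 x3 x4
    exact half R g hsub hpos (R \ C) hC'R hC'ne hC' c c' a a' hc hc'
      (by rw [hss]; exact ha) (by rw [hss]; exact ha') q1
      (by rw [hss]; exact p2) X hX x1 x2 x3 x4

end Pool.Agent.W127.Frank
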