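import Mathlib
import Pool.Agent.W127.FrankCrit
import Pool.Agent.W127.FrankCrux

set_option autoImplicit false

namespace Pool.Agent.W127.Frank

open Finset

variable {n : ℕ}

/-- every zero of `x` is covered by a tight set and any two zeros are separated by one. -/
def Good (b : Finset (Fin n) → ℤ) (x : Fin n → ℤ) : Prop :=
  InK b x ∧ (∀ i, x i = 0 → ∃ S, ∑ k ∈ S, x k = b S ∧ i ∈ S) ∧
    (∀ i j, i ≠ j → x i = 0 → x j = 0 → ∃ S, ∑ k ∈ S, x k = b S ∧ ¬ (i ∈ S ↔ j ∈ S))

theorem caseI {b : Finset (Fin n) → ℤ} (h2 : ∀ S, b S ≤ 2) (x : Fin n → ℤ) (hx : InK b x)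
    (a a' : Fin n) (haa : a ≠ a') (ha : x a = 1) (ha' : x a' = 1) : Good b x := by
  classical
  have hP : ∀ i, x i = 0 → ∑ k ∈ insert i (Finset.univ.filter (fun k => x k = 1)), x k
      = b (insert i (Finset.univ.filter (fun k => x k = 1))) := by
    intro i hi
    have hnot : i ∉ Finset.univ.filter (fun k => x k = 1) := by simp [hi]
    have e1 : ∑ k ∈ insert i (Finset.univ.filter (fun k => x k = 1)), x k
        = ∑ k ∈ Finset.univ.filter (fun k => x k = 1), x k := by
      rw [Finset.sum_insert hnot, hi, zero_add]
    have e2 : ∑ k ∈ Finset.univ.filter (fun k => x k = 1), x k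
        = ((Finset.univ.filter (fun k => x k = 1)).card : ℤ) := by
      rw [Finset.sum_congr rfl (g := fun _ => (1:ℤ)) (by
        intro k hk
        exact (Finset.mem_filter.1 hk).2)]
      simp
    have e3 : 2 ≤ (Finset.univ.filter (fun k => x k = 1)).card := by
      have h3 : ({a, a'} : Finset (Fin n)) ⊆ Finset.univ.filter (fun k => x k = 1) := by
        intro t ht
        simp only [Finset.mem_insert, Finset.mem_singleton] at ht
        rcases ht with rfl | rfl
        · simp [ha]
        · simp [ha']
      have h4 := Finset.card_le_card h3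
      rw [Finset.card_pair haa] at h4
      exact h4
    have e4 := (hx (insert i (Finset.univ.filter (fun k => x k = 1)))).1
    have e5 := h2 (insert i (Finset.univ.filter (fun k => x k = 1)))
    have e6 : (2:ℤ) ≤ ((Finset.univ.filter (fun k => x k = 1)).card : ℤ) := by exact_mod_cast e3
    rw [e1, e2] at e4 ⊢
    linarith
  refine ⟨hx, ?_, ?_⟩
  · intro i hi
    exact ⟨_, hP i hi, Finset.mem_insert_self _ _⟩
  · intro i j hij hi hj
    refine ⟨_, hP i hi, ?_⟩
    intro h
    have h3 := h.1 (Finset.mem_insert_self _ _)
    rw [Finset.mem_insert] at h3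
    rcases h3 with h3 | h3
    · exact hij h3.symm
    · have := (Finset.mem_filter.1 h3).2
      rw [hj] at this
      norm_num at this

theorem sE (p : Fin n) (S : Finset (Fin n)) :
    ∑ k ∈ S, (if k = p then (1:ℤ) else 0) = if p ∈ S then 1 else 0 := by
  simp

theorem caseB {b : Finset (Fin n) → ℤ} (hn : ∀ S, 0 ≤ b S)
    (hII : ∀ x, InK b x → ∀ a a', a ≠ a' → x a = 1 → x a' = 1 → False)
    (p : Fin n) (hp : ∀ S, p ∈ S → 1 ≤ b S) : Good b (fun k => if k = p then 1 else 0) := by
  classical
  refine ⟨?_, ?_, ?_⟩
  · intro S
    rw [sE]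
    have := hn S
    by_cases h : p ∈ S
    · have := hp S h
      simp only [h, if_true]
      constructor <;> linarith
    · simp only [h, if_false]
      constructor <;> linarith
  · intro i hi
    have hip : i ≠ p := by
      rintro rfl
      simp at hi
    by_contra hcon
    push Not at hcon
    apply hII (fun k => (if k = p then 1 else 0) + (if k = i then 1 else 0)) _ p i
      (Ne.symm hip) (by simp [Ne.symm hip]) (by simp [hip])
    intro S
    rw [Finset.sum_add_distrib, sE, sE]
    have h3 := hn S
    have h4 := hp S
    have h5 := hcon S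
    rw [sE] at h5
    by_cases hpS : p ∈ S <;> by_cases hiS : i ∈ S <;> simp only [hpS, hiS, if_true, if_false] at *
    · have h6 : (1:ℤ) ≠ b S := fun h => h5 h hiS
      have h7 := h4 hpS
      constructor <;> omega
    · have h7 := h4 hpS
      constructor <;> omega
    · have h6 : (0:ℤ) ≠ b S := fun h => h5 h hiS
      constructor <;> omega
    · constructor <;> omega
  · intro i j hij hi hj
    have hip : i ≠ p := by
      rintro rfl
      simp at hi
    have hjp : j ≠ p := by
      rintro rfl
      simp at hj
    by_contra hcon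
    push Not at hcon
    apply hII (fun k => (if k = p then 1 else 0) + ((if k = i then 1 else 0) - (if k = j then 1 else 0)))
      _ p i (Ne.symm hip) (by simp [Ne.symm hip, Ne.symm hjp]) (by simp [hip, hij])
    intro S
    rw [Finset.sum_add_distrib, Finset.sum_sub_distrib, sE, sE, sE]
    have h3 := hn S
    have h4 := hp S
    have h5 := hcon S
    rw [sE] at h5
    by_cases hpS : p ∈ S <;> by_cases hiS : i ∈ S <;> by_cases hjS : j ∈ S <;>
      simp only [hpS, hiS, hjS, if_true, if_false, true_imp_iff] at h4 h5 ⊢
    · constructor <;> omega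
    · have h6 : (1:ℤ) ≠ b S := fun h => by simpa using h5 h
      constructor <;> omega
    · have h6 : (1:ℤ) ≠ b S := fun h => by simpa using h5 h
      constructor <;> omega
    · constructor <;> omega
    · constructor <;> omega
    · have h6 : (0:ℤ) ≠ b S := fun h => by simpa using h5 h
      constructor <;> omega
    · have h6 : (0:ℤ) ≠ b S := fun h => by simpa using h5 h
      constructor <;> omega
    · constructor <;> omega

end Pool.Agent.W127.Frank
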