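import Mathlib
import Pool.Agent.W127.FrankMain

set_option autoImplicit false

namespace Pool.Agent.W127.Frank

open Finset

variable {n : ℕ}

theorem zz {b : Finset (Fin n) → ℤ}
    (hs : ∀ A B : Finset (Fin n), b (A ∪ B) + b (A ∩ B) ≤ b A + b B) (hn : ∀ S, 0 ≤ b S)
    {A B : Finset (Fin n)} (hA : b A = 0) (hB : b B = 0) :
    b (A ∪ B) = 0 ∧ b (A ∩ B) = 0 := by
  have h1 := hs A B
  have h2 := hn (A ∪ B)
  have h3 := hn (A ∩ B)
  constructor <;> linarith

theorem ind {b : Finset (Fin n) → ℤ} (hn : ∀ S, 0 ≤ b S) (S W : Finset (Fin n)) (p q : Fin n)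
    (h : b W = 0 → (p ∈ S ↔ q ∈ S)) :
    ((if p ∈ S then (1:ℤ) else 0) - (if q ∈ S then 1 else 0)) ≤ b W ∧
      -((if p ∈ S then (1:ℤ) else 0) - (if q ∈ S then 1 else 0)) ≤ b W := by
  have hW := hn W
  by_cases hp : p ∈ S <;> by_cases hq : q ∈ S <;> simp only [hp, hq, if_true, if_false]
  · constructor <;> linarith
  · have h3 : b W ≠ 0 := fun h' => hq ((h h').1 hp)
    constructor <;> omega
  · have h3 : b W ≠ 0 := fun h' => hp ((h h').2 hq)
    constructor <;> omega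
  · constructor <;> linarith

/-- the vector `e_p - e_q` -/
def D (p q : Fin n) : Fin n → ℤ := fun k => (if k = p then 1 else 0) - (if k = q then 1 else 0)

theorem sD (p q : Fin n) (S : Finset (Fin n)) :
    ∑ k ∈ S, D p q k = (if p ∈ S then (1:ℤ) else 0) - (if q ∈ S then 1 else 0) := by
  unfold D
  rw [Finset.sum_sub_distrib, sE, sE]

theorem InKD {b : Finset (Fin n) → ℤ} (hn : ∀ S, 0 ≤ b S) (p q : Fin n)
    (hpqZ : ∀ S, b S = 0 → (p ∈ S ↔ q ∈ S)) : InK b (D p q) := by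
  intro S
  rw [sD]
  exact ind hn S S p q (hpqZ S)

theorem sepR {b : Finset (Fin n) → ℤ}
    (hs : ∀ A B : Finset (Fin n), b (A ∪ B) + b (A ∩ B) ≤ b A + b B) (hn : ∀ S, 0 ≤ b S)
    (hII : ∀ x, InK b x → ∀ a a', a ≠ a' → x a = 1 → x a' = 1 → False)
    (p q : Fin n) (hpq : p ≠ q) (hpqZ : ∀ S, b S = 0 → (p ∈ S ↔ q ∈ S))
    (T S1 : Finset (Fin n)) (hT0 : b T = 0) (hS0 : b S1 = 0) (hpT : p ∈ T) (hqT : q ∈ T)
    (hpS : p ∉ S1) (hqS : q ∉ S1) (i j : Fin n) (hij : i ≠ j) (hip : i ≠ p) (hiq : i ≠ q)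
    (hjp : j ≠ p) (_hjq : j ≠ q) (hijZ : ∀ S, b S = 0 → (i ∈ S ↔ j ∈ S)) : i ∈ T \ S1 := by
  classical
  by_contra hnot
  have hcase : i ∉ T ∨ i ∈ S1 := by
    rw [Finset.mem_sdiff] at hnot
    tauto
  apply hII (fun k => D p q k + D i j k) _ p i (Ne.symm hip)
    (by simp [D, hpq, Ne.symm hip, Ne.symm hjp]) (by simp [D, hip, hiq, hij])
  intro S
  rw [Finset.sum_add_distrib, sD, sD]
  rcases hcase with hiT | hiS
  · have hjT : j ∉ T := fun h => hiT ((hijZ T hT0).2 h)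
    have e0 := hs S T
    have e1 := ind hn S (S ∩ T) p q (by
      intro h
      have := hpqZ _ h
      simpa [Finset.mem_inter, hpT, hqT] using this)
    have e2 := ind hn S (S ∪ T) i j (by
      intro h
      have := hijZ _ h
      simpa [Finset.mem_union, hiT, hjT] using this)
    constructor <;> linarith [e1.1, e1.2, e2.1, e2.2]
  · have hjS : j ∈ S1 := (hijZ S1 hS0).1 hiS
    have e0 := hs S S1
    have e1 := ind hn S (S ∪ S1) p q (by
      intro h
      have := hpqZ _ h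
      simpa [Finset.mem_union, hpS, hqS] using this)
    have e2 := ind hn S (S ∩ S1) i j (by
      intro h
      have := hijZ _ h
      simpa [Finset.mem_inter, hiS, hjS] using this)
    constructor <;> linarith [e1.1, e1.2, e2.1, e2.2]

theorem ind4 (S : Finset (Fin n)) (a a' c c' : Fin n) (m : ℤ) (hm : 0 ≤ m)
    (h1 : a ∈ S → c ∉ S → 1 ≤ m) (h2 : a ∈ S → c' ∉ S → 1 ≤ m)
    (h3 : a' ∈ S → c ∉ S → 1 ≤ m) (_h4 : a' ∈ S → c' ∉ S → 1 ≤ m)
    (h5 : a ∈ S → a' ∈ S → c ∉ S → c' ∉ S → 2 ≤ m) :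
    ((if a ∈ S then (1:ℤ) else 0) + (if a' ∈ S then 1 else 0)) -
      ((if c ∈ S then (1:ℤ) else 0) + (if c' ∈ S then 1 else 0)) ≤ m := by
  by_cases ha : a ∈ S <;> by_cases ha' : a' ∈ S <;> by_cases hc : c ∈ S <;>
    by_cases hc' : c' ∈ S <;> simp only [ha, ha', hc, hc', if_true, if_false]
  · linarith
  · linarith [h2 ha hc']
  · linarith [h1 ha hc]
  · linarith [h5 ha ha' hc hc']
  · linarith
  · linarith
  · linarith
  · linarith [h1 ha hc]
  · linarith
  · linarith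
  · linarith
  · linarith [h3 ha' hc]
  · linarith
  · linarith
  · linarith
  · linarith

theorem caseD {b : Finset (Fin n) → ℤ} (h0 : b ∅ = 0)
    (hs : ∀ A B : Finset (Fin n), b (A ∪ B) + b (A ∩ B) ≤ b A + b B) (hn : ∀ S, 0 ≤ b S)
    (h2 : ∀ S, b S ≤ 2) (h1 : ∀ i, b {i} ≤ 1)
    (hII : ∀ x, InK b x → ∀ a a', a ≠ a' → x a = 1 → x a' = 1 → False)
    (hZ : ∀ p, ∃ S, b S = 0 ∧ p ∈ S) (p q : Fin n) (hpq : p ≠ q)
    (hpqZ : ∀ S, b S = 0 → (p ∈ S ↔ q ∈ S)) :
    Good b (D p q) ∨ Good b (D q p) := by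
  classical
  obtain ⟨T, hT, hTmin⟩ := Finset.exists_min_image
    (Finset.univ.filter (fun S : Finset (Fin n) => b S = 0 ∧ p ∈ S))
    (fun S => S.card) (by
      obtain ⟨S, h1, h2⟩ := hZ p
      exact ⟨S, by simp [h1, h2]⟩)
  simp only [Finset.mem_filter, Finset.mem_univ, true_and] at hT hTmin
  obtain ⟨hT0, hpT⟩ := hT
  have hTsub : ∀ S, b S = 0 → p ∈ S → T ⊆ S := by
    intro S a1 a2
    have a3 := (zz hs hn hT0 a1).2
    have a4 := hTmin (T ∩ S) ⟨a3, Finset.mem_inter.2 ⟨hpT, a2⟩⟩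
    exact Finset.inter_eq_left.1 (Finset.eq_of_subset_of_card_le Finset.inter_subset_left a4)
  obtain ⟨S1, hS1, hS1max⟩ := Finset.exists_max_image
    (Finset.univ.filter (fun S : Finset (Fin n) => b S = 0 ∧ p ∉ S))
    (fun S => S.card) ⟨∅, by simp [h0]⟩
  simp only [Finset.mem_filter, Finset.mem_univ, true_and] at hS1 hS1max
  obtain ⟨hS0, hpS⟩ := hS1
  have hS1sub : ∀ S, b S = 0 → p ∉ S → S ⊆ S1 := by
    intro S a1 a2
    have a3 := (zz hs hn hS0 a1).1
    have a4 := hS1max (S1 ∪ S) ⟨a3, by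
      simp only [Finset.mem_union, not_or]
      exact ⟨hpS, a2⟩⟩
    have a5 : S1 = S1 ∪ S := Finset.eq_of_subset_of_card_le Finset.subset_union_left a4
    rw [a5]
    exact Finset.subset_union_right
  have hqT : q ∈ T := (hpqZ T hT0).1 hpT
  have hqS : q ∉ S1 := fun h => hpS ((hpqZ S1 hS0).2 h)
  obtain ⟨R, hR⟩ : ∃ R, R = T \ S1 := ⟨_, rfl⟩
  have hpR : p ∈ R := by rw [hR]; exact Finset.mem_sdiff.2 ⟨hpT, hpS⟩
  have hqR : q ∈ R := by rw [hR]; exact Finset.mem_sdiff.2 ⟨hqT, hqS⟩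
  have hRS : ∀ t ∈ R, t ∉ S1 := by
    intro t ht
    rw [hR] at ht
    exact (Finset.mem_sdiff.1 ht).2
  obtain ⟨g, hg⟩ : ∃ g : Finset (Fin n) → ℤ, g = fun C => b (S1 ∪ C) := ⟨_, rfl⟩
  have hgv : ∀ C, g C = b (S1 ∪ C) := fun C => by rw [hg]
  have gsub : ∀ A B, A ⊆ R → B ⊆ R → g (A ∪ B) + g (A ∩ B) ≤ g A + g B := by
    intro A B _ _
    have e := hs (S1 ∪ A) (S1 ∪ B)
    have e1 : (S1 ∪ A) ∪ (S1 ∪ B) = S1 ∪ (A ∪ B) := by
      ext t; simp only [Finset.mem_union]; tauto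
    have e2 : (S1 ∪ A) ∩ (S1 ∪ B) = S1 ∪ (A ∩ B) := by
      ext t; simp only [Finset.mem_union, Finset.mem_inter]; tauto
    rw [e1, e2] at e
    simp only [hgv]
    exact e
  have gpos : ∀ A, A ⊆ R → A.Nonempty → A ≠ R → 1 ≤ g A := by
    intro A hA hAne hAR
    rw [hgv]
    by_contra hlt
    have hz : b (S1 ∪ A) = 0 := by
      have := hn (S1 ∪ A)
      omega
    by_cases hp : p ∈ S1 ∪ A
    · have h3 := hTsub _ hz hp
      apply hAR
      refine Finset.Subset.antisymm hA ?_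
      intro t ht
      have h4 : t ∈ T := by
        rw [hR] at ht
        exact (Finset.mem_sdiff.1 ht).1
      rcases Finset.mem_union.1 (h3 h4) with h5 | h5
      · exact absurd h5 (hRS t ht)
      · exact h5
    · have h3 := hS1sub _ hz hp
      obtain ⟨t, ht⟩ := hAne
      exact hRS t (hA ht) (h3 (Finset.mem_union_right _ ht))
  have gsing : ∀ c ∈ R, g {c} ≤ 1 := by
    intro c _
    have e := hs S1 {c}
    have e1 := hn (S1 ∩ {c})
    have e2 := h1 c
    rw [hgv]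
    linarith
  have gemp : g ∅ = 0 := by
    rw [hgv, Finset.union_empty]
    exact hS0
  have hext : ∀ S, g (S ∩ R) ≤ b S := by
    intro S
    rw [hgv]
    have e1 := hs S S1
    have e2 := hn (S ∩ S1)
    have e3 := hs (S ∪ S1) (S1 ∪ T)
    have e4 := hn ((S ∪ S1) ∪ (S1 ∪ T))
    have e5 := (zz hs hn hS0 hT0).1
    have e6 : (S ∪ S1) ∩ (S1 ∪ T) = S1 ∪ (S ∩ R) := by
      rw [hR]
      ext t
      simp only [Finset.mem_union, Finset.mem_inter, Finset.mem_sdiff]
      tauto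
    rw [e6] at e3
    linarith
  have gno : ∀ a a' c c' : Fin n, a ∈ R → a' ∈ R → c ∈ R → c' ∈ R → a ≠ a' → c ≠ c' →
      a ≠ c → a ≠ c' → a' ≠ c → a' ≠ c' →
      (∀ X, X ⊆ R → a ∈ X → a' ∈ X → c ∉ X → c' ∉ X → 2 ≤ g X) →
      (∀ X, X ⊆ R → c ∈ X → c' ∈ X → a ∉ X → a' ∉ X → 2 ≤ g X) → False := by
    intro a a' c c' ha ha' hc hc' haa hcc h3 h4 h5 h6 G1 G2
    apply hII (fun k => ((if k = a then 1 else 0) + (if k = a' then 1 else 0)) -
      ((if k = c then 1 else 0) + (if k = c' then 1 else 0))) _ a a' haa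
      (by simp [haa, h3, h4]) (by simp [Ne.symm haa, h5, h6])
    intro S
    rw [Finset.sum_sub_distrib, Finset.sum_add_distrib, Finset.sum_add_distrib, sE, sE, sE, sE]
    have hb := hext S
    have hXR : S ∩ R ⊆ R := Finset.inter_subset_right
    have hone : ∀ u v : Fin n, u ∈ R → v ∈ R → u ∈ S → v ∉ S → 1 ≤ g (S ∩ R) := by
      intro u v huR hvR huS hvS
      apply gpos _ hXR ⟨u, Finset.mem_inter.2 ⟨huS, huR⟩⟩
      intro h
      have : v ∈ S ∩ R := by rw [h]; exact hvR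
      exact hvS (Finset.mem_inter.1 this).1
    have hmn : 0 ≤ g (S ∩ R) := by rw [hgv]; exact hn _
    have k1 := ind4 S a a' c c' (g (S ∩ R)) hmn (hone a c ha hc) (hone a c' ha hc')
      (hone a' c ha' hc) (hone a' c' ha' hc') (fun x1 x2 x3 x4 => G1 _ hXR
        (Finset.mem_inter.2 ⟨x1, ha⟩) (Finset.mem_inter.2 ⟨x2, ha'⟩)
        (fun h => x3 (Finset.mem_inter.1 h).1) (fun h => x4 (Finset.mem_inter.1 h).1))
    have k2 := ind4 S c c' a a' (g (S ∩ R)) hmn (hone c a hc ha) (hone c a' hc ha')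
      (hone c' a hc' ha) (hone c' a' hc' ha') (fun x1 x2 x3 x4 => G2 _ hXR
        (Finset.mem_inter.2 ⟨x1, hc⟩) (Finset.mem_inter.2 ⟨x2, hc'⟩)
        (fun h => x3 (Finset.mem_inter.1 h).1) (fun h => x4 (Finset.mem_inter.1 h).1))
    constructor <;> linarith
  have hL := crux R g gsub gpos (fun A _ => by rw [hgv]; exact h2 _) gsing gemp gno
  -- tightness of zero sets
  have hzt : ∀ S, b S = 0 → ∑ k ∈ S, D p q k = b S := by
    intro S hS
    have h := hpqZ S hS
    rw [sD, hS]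
    by_cases hp : p ∈ S
    · simp [hp, h.1 hp]
    · have hq : q ∉ S := fun hq => hp (h.2 hq)
      simp [hp, hq]
  have hzt' : ∀ S, b S = 0 → ∑ k ∈ S, D q p k = b S := by
    intro S hS
    have h := hpqZ S hS
    rw [sD, hS]
    by_cases hp : p ∈ S
    · simp [hp, h.1 hp]
    · have hq : q ∉ S := fun hq => hp (h.2 hq)
      simp [hp, hq]
  have hcov : ∀ i, D p q i = 0 → ∃ S, ∑ k ∈ S, D p q k = b S ∧ i ∈ S := by
    intro i _
    obtain ⟨S, a1, a2⟩ := hZ i
    exact ⟨S, hzt S a1, a2⟩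
  have hcov' : ∀ i, D q p i = 0 → ∃ S, ∑ k ∈ S, D q p k = b S ∧ i ∈ S := by
    intro i _
    obtain ⟨S, a1, a2⟩ := hZ i
    exact ⟨S, hzt' S a1, a2⟩
  have hne : ∀ i, D p q i = 0 → i ≠ p ∧ i ≠ q := by
    intro i hi
    constructor
    · rintro rfl
      simp [D, hpq] at hi
    · rintro rfl
      simp [D, Ne.symm hpq] at hi
  have hne' : ∀ i, D q p i = 0 → i ≠ p ∧ i ≠ q := by
    intro i hi
    constructor
    · rintro rfl
      simp [D, hpq] at hi
    · rintro rfl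
      simp [D, Ne.symm hpq] at hi
  by_cases hG : Good b (D p q)
  · exact Or.inl hG
  right
  have hex : ∃ i j, i ≠ j ∧ D p q i = 0 ∧ D p q j = 0 ∧
      ∀ S, ∑ k ∈ S, D p q k = b S → (i ∈ S ↔ j ∈ S) := by
    by_contra hcon
    push Not at hcon
    apply hG
    refine ⟨InKD hn p q hpqZ, hcov, ?_⟩
    intro i j hij hi hj
    obtain ⟨S, a1, a2⟩ := hcon i j hij hi hj
    refine ⟨S, a1, ?_⟩
    rcases a2 with a2 | a2
    · exact fun h => a2.2 (h.1 a2.1)
    · exact fun h => a2.1 (h.2 a2.2)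
  obtain ⟨i, j, hij, hi, hj, hins⟩ := hex
  obtain ⟨hip, hiq⟩ := hne i hi
  obtain ⟨hjp, hjq⟩ := hne j hj
  have hiR : i ∈ R := by
    rw [hR]
    exact sepR hs hn hII p q hpq hpqZ T S1 hT0 hS0 hpT hqT hpS hqS i j hij hip hiq hjp hjq
      (fun S hS => hins S (hzt S hS))
  have hjR : j ∈ R := by
    rw [hR]
    exact sepR hs hn hII p q hpq hpqZ T S1 hT0 hS0 hpT hqT hpS hqS j i (Ne.symm hij) hjp hjq
      hip hiq (fun S hS => (hins S (hzt S hS)).symm)
  have hne1 : ∀ C, C ⊆ R → p ∈ C → q ∉ C → g C = 1 → (i ∈ C ↔ j ∈ C) := by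
    intro C hC hpC hqC hgC
    have ht : ∑ k ∈ S1 ∪ C, D p q k = b (S1 ∪ C) := by
      rw [sD, ← hgv, hgC]
      simp [hpC, hqC, hqS]
    have h := hins _ ht
    simpa [Finset.mem_union, hRS i hiR, hRS j hjR] using h
  have hA : ∀ Y, Y ⊆ R → q ∈ Y → p ∉ Y → ¬ (i ∈ Y ↔ j ∈ Y) → g Y = 1 := by
    intro Y hY hqY hpY hijY
    have hss : R \ (R \ Y) = Y := Finset.sdiff_sdiff_eq_self hY
    have hpC : p ∈ R \ Y := Finset.mem_sdiff.2 ⟨hpR, hpY⟩
    have hqC : q ∉ R \ Y := fun h => (Finset.mem_sdiff.1 h).2 hqY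
    have e := hL (R \ Y) Finset.sdiff_subset ⟨p, hpC⟩
      (by intro h; apply hqC; rw [h]; exact hqR)
      (by
        intro hg1
        have h := hne1 (R \ Y) Finset.sdiff_subset hpC hqC hg1
        apply hijY
        simp only [Finset.mem_sdiff, hiR, hjR, true_and] at h
        tauto)
    rw [hss] at e
    exact e
  have hY1 : ∀ Y, Y ⊆ R → q ∈ Y → p ∉ Y → g Y = 1 := by
    intro Y hY hqY hpY
    by_cases hiY : i ∈ Y <;> by_cases hjY : j ∈ Y
    · -- both
      have e1 := hA (Y.erase i) ((Finset.erase_subset _ _).trans hY)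
        (Finset.mem_erase.2 ⟨Ne.symm hiq, hqY⟩) (fun h => hpY (Finset.mem_of_mem_erase h))
        (by simp [hjY, Ne.symm hij])
      have e2 := hA (Y.erase j) ((Finset.erase_subset _ _).trans hY)
        (Finset.mem_erase.2 ⟨Ne.symm hjq, hqY⟩) (fun h => hpY (Finset.mem_of_mem_erase h))
        (by simp [hiY, hij])
      have e3 := gsub (Y.erase i) (Y.erase j) ((Finset.erase_subset _ _).trans hY)
        ((Finset.erase_subset _ _).trans hY)
      have e4 : Y.erase i ∪ Y.erase j = Y := by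
        ext t
        simp only [Finset.mem_union, Finset.mem_erase]
        constructor
        · rintro (h | h) <;> exact h.2
        · intro h
          by_cases hti : t = i
          · right
            exact ⟨by rw [hti]; exact hij, h⟩
          · left
            exact ⟨hti, h⟩
      rw [e4] at e3
      have e5 := gpos (Y.erase i ∩ Y.erase j)
        ((Finset.inter_subset_left.trans (Finset.erase_subset _ _)).trans hY)
        ⟨q, Finset.mem_inter.2 ⟨Finset.mem_erase.2 ⟨Ne.symm hiq, hqY⟩,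
          Finset.mem_erase.2 ⟨Ne.symm hjq, hqY⟩⟩⟩
        (by
          intro h
          have : p ∈ Y.erase i ∩ Y.erase j := by rw [h]; exact hpR
          exact hpY (Finset.mem_of_mem_erase (Finset.mem_inter.1 this).1))
      have e6 := gpos Y hY ⟨q, hqY⟩ (by intro h; apply hpY; rw [h]; exact hpR)
      linarith
    · exact hA Y hY hqY hpY (fun h => hjY (h.1 hiY))
    · exact hA Y hY hqY hpY (fun h => hiY (h.2 hjY))
    · -- neither
      have f1 : insert i Y ⊆ R := Finset.insert_subset hiR hY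
      have f2 : insert j Y ⊆ R := Finset.insert_subset hjR hY
      have e1 := hA (insert i Y) f1 (Finset.mem_insert_of_mem hqY)
        (by simp [hpY, Ne.symm hip]) (by simp [hjY, Ne.symm hij])
      have e2 := hA (insert j Y) f2 (Finset.mem_insert_of_mem hqY)
        (by simp [hpY, Ne.symm hjp]) (by simp [hiY, hij])
      have e3 := gsub (insert i Y) (insert j Y) f1 f2
      have e4 : insert i Y ∩ insert j Y = Y := by
        ext t
        simp only [Finset.mem_inter, Finset.mem_insert]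
        constructor
        · rintro ⟨h | h, h' | h'⟩
          · exact absurd (h.symm.trans h') hij
          · exact h'
          · exact h
          · exact h
        · intro h
          exact ⟨Or.inr h, Or.inr h⟩
      rw [e4] at e3
      have e5 := gpos (insert i Y ∪ insert j Y) (Finset.union_subset f1 f2)
        ⟨q, Finset.mem_union_left _ (Finset.mem_insert_of_mem hqY)⟩
        (by
          intro h
          have : p ∈ insert i Y ∪ insert j Y := by rw [h]; exact hpR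
          simp [hpY, Ne.symm hip, Ne.symm hjp] at this)
      have e6 := gpos Y hY ⟨q, hqY⟩ (by intro h; apply hpY; rw [h]; exact hpR)
      linarith
  have key : ∀ u v, u ≠ v → u ≠ p → u ≠ q → v ≠ p → v ≠ q → u ∈ R →
      ∃ S, ∑ k ∈ S, D q p k = b S ∧ ¬ (u ∈ S ↔ v ∈ S) := by
    intro u v huv hup _ _ hvq huR
    by_cases hvS : v ∈ S1
    · exact ⟨S1, hzt' S1 hS0, fun h => hRS u huR (h.2 hvS)⟩
    · refine ⟨S1 ∪ {q, u}, ?_, ?_⟩
      · have e := hY1 {q, u} (by
          intro t ht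
          simp only [Finset.mem_insert, Finset.mem_singleton] at ht
          rcases ht with rfl | rfl
          · exact hqR
          · exact huR) (by simp) (by simp [hpq, Ne.symm hup])
        rw [sD, ← hgv, e]
        simp [hpS, hpq, Ne.symm hup]
      · intro h
        have h3 := h.1 (by simp)
        simp [hvS, hvq, Ne.symm huv] at h3
  refine ⟨InKD hn q p (fun S hS => (hpqZ S hS).symm), hcov', ?_⟩
  intro u v huv hu hv
  obtain ⟨hup, huq⟩ := hne' u hu
  obtain ⟨hvp, hvq⟩ := hne' v hv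
  by_cases huR : u ∈ R
  · exact key u v huv hup huq hvp hvq huR
  by_contra hcon
  push Not at hcon
  apply huR
  rw [hR]
  apply sepR hs hn hII p q hpq hpqZ T S1 hT0 hS0 hpT hqT hpS hqS u v huv hup huq hvp hvq
  intro S hS
  exact hcon S (hzt' S hS)

/-- The combinatorial theorem. -/
theorem main_b (b : Finset (Fin n) → ℤ) (h0 : b ∅ = 0)
    (hs : ∀ A B : Finset (Fin n), b (A ∪ B) + b (A ∩ B) ≤ b A + b B) (hn : ∀ S, 0 ≤ b S)
    (h2 : ∀ S, b S ≤ 2) (h1 : ∀ i, b {i} ≤ 1) : ∃ x, Good b x := by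
  classical
  by_cases hI : ∃ x, InK b x ∧ ∃ a a', a ≠ a' ∧ x a = 1 ∧ x a' = 1
  · obtain ⟨x, hx, a, a', h3, h4, h5⟩ := hI
    exact ⟨x, caseI h2 x hx a a' h3 h4 h5⟩
  have hII : ∀ x, InK b x → ∀ a a', a ≠ a' → x a = 1 → x a' = 1 → False :=
    fun x hx a a' h3 h4 h5 => hI ⟨x, hx, a, a', h3, h4, h5⟩
  by_cases hB : ∃ p, ∀ S, p ∈ S → 1 ≤ b S
  · obtain ⟨p, hp⟩ := hB
    exact ⟨_, caseB hn hII p hp⟩
  have hZ : ∀ p, ∃ S, b S = 0 ∧ p ∈ S := by
    intro p
    by_contra hcon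
    apply hB
    refine ⟨p, fun S hS => ?_⟩
    by_contra hlt
    apply hcon
    refine ⟨S, ?_, hS⟩
    have := hn S
    omega
  by_cases hC : ∀ i j, i ≠ j → ∃ S, b S = 0 ∧ ¬ (i ∈ S ↔ j ∈ S)
  · refine ⟨fun _ => 0, ?_, ?_, ?_⟩
    · intro S
      have := hn S
      simp [this]
    · intro i _
      obtain ⟨S, a1, a2⟩ := hZ i
      exact ⟨S, by simp [a1], a2⟩
    · intro i j hij _ _
      obtain ⟨S, a1, a2⟩ := hC i j hij
      exact ⟨S, by simp [a1], a2⟩
  · have hC' : ∃ p q, p ≠ q ∧ ∀ S, b S = 0 → (p ∈ S ↔ q ∈ S) := by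
      by_contra hcon
      apply hC
      intro i j hij
      by_contra h3
      apply hcon
      refine ⟨i, j, hij, fun S hS => ?_⟩
      by_contra h4
      exact h3 ⟨S, hS, h4⟩
    obtain ⟨p, q, hpq, hpqZ⟩ := hC'
    rcases caseD h0 hs hn h2 h1 hII hZ p q hpq hpqZ with h | h
    · exact ⟨_, h⟩
    · exact ⟨_, h⟩

/-- Frank's statement for polymatroids with `f(A) ≤ |A| + 2`. -/
theorem excess_two (n : ℕ) (f : Finset (Fin n) → ℤ) (hf0 : f ∅ = 0)
    (hsub : ∀ A B : Finset (Fin n), f (A ∪ B) + f (A ∩ B) ≤ f A + f B)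
    (h2 : ∀ e : Fin n, f {e} ≤ 2)
    (hge : ∀ A : Finset (Fin n), (A.card : ℤ) ≤ f A)
    (hle : ∀ A : Finset (Fin n), f A ≤ (A.card : ℤ) + 2) :
    ∃ v ∈ Set.extremePoints ℝ
          {x : Fin n → ℝ | (∀ i, 0 ≤ x i) ∧
            ∀ A : Finset (Fin n), ∑ i ∈ A, x i ≤ (f A : ℝ)},
        (∀ i, 0 ≤ 2 - v i) ∧
          ∀ A : Finset (Fin n), ∑ i ∈ A, (2 - v i) ≤ (f A : ℝ) := by
  obtain ⟨x, hx1, hx2, hx3⟩ := main_b (fun S => f S - (S.card : ℤ)) (by simp [hf0]) (by
      intro A B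
      have e1 := hsub A B
      have e2 := Finset.card_union_add_card_inter A B
      have e3 : ((A ∪ B).card : ℤ) + ((A ∩ B).card : ℤ) = A.card + B.card := by
        exact_mod_cast e2
      linarith) (by
      intro S
      have := hge S
      linarith) (by
      intro S
      have := hle S
      linarith) (by
      intro i
      have := h2 i
      simp only [Finset.card_singleton, Nat.cast_one]
      linarith)
  exact crit f hf0 hsub h2 x hx1 hx2 hx3

end Pool.Agent.W127.Frank
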