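import Pool.Agent.W127.K33Proof

set_option autoImplicit false

/-!
# A 13-vertex triangle-free graph without K_{3,3} induced minor
-/

namespace Pool.Agent.W127.K33F

/-- the mask m represents the set S -/
def rep (m : Nat) (S : Set (Fin 13)) : Prop :=
  m < 8192 ∧ ∀ v : Fin 13, m.testBit v.val = true ↔ v ∈ S

theorem rep_lt {m : Nat} {S : Set (Fin 13)} (h : rep m S) {v : Nat} (hv : m.testBit v = true) :
    v < 13 := by
  by_contra hc
  have h1 : m < 2 ^ v := lt_of_lt_of_le h.1 (by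
    calc 8192 = 2 ^ 13 := by norm_num
      _ ≤ 2 ^ v := Nat.pow_le_pow_right (by norm_num) (by omega))
  rw [Nat.testBit_lt_two_pow h1] at hv
  exact absurd hv (by simp)

theorem exists_rep (S : Set (Fin 13)) : ∃ m, rep m S := by
  classical
  refine ⟨Nat.ofBits (fun v : Fin 13 => decide (v ∈ S)), ?_, ?_⟩
  · have := Nat.ofBits_lt_two_pow (fun v : Fin 13 => decide (v ∈ S))
    calc _ < 2 ^ 13 := this
      _ = 8192 := by norm_num
  · intro v
    rw [Nat.testBit_ofBits_lt _ _ v.isLt]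
    simp

theorem conn_closed {V : Type} {H : SimpleGraph V} {S : Set V} (h : (H.induce S).Connected)
    (P : V → Prop) (v0 : V) (hv0 : v0 ∈ S) (hP : P v0)
    (hcl : ∀ u ∈ S, ∀ v ∈ S, P u → H.Adj u v → P v) : ∀ v ∈ S, P v := by
  intro v hv
  have hr : (H.induce S).Reachable ⟨v0, hv0⟩ ⟨v, hv⟩ := h.preconnected _ _
  rw [SimpleGraph.reachable_iff_reflTransGen] at hr
  have key : ∀ x : S, Relation.ReflTransGen (H.induce S).Adj ⟨v0, hv0⟩ x → P x.val := by
    intro x hx
    induction hx with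
    | refl => exact hP
    | tail _ hab ih => exact hcl _ (Subtype.property _) _ (Subtype.property _) ih hab
  exact key _ hr

theorem land_zero_of {a b : Nat} (h : Nat.beq (Nat.land a b) 0 = true) : a &&& b = 0 :=
  Nat.eq_of_beq_eq_true h

theorem testBit_of_zero {a b : Nat} (h : a &&& b = 0) {v : Nat} (ha : a.testBit v = true) :
    b.testBit v = false := by
  by_contra hb
  rw [Bool.not_eq_false] at hb
  have : (a &&& b).testBit v = true := by rw [Nat.testBit_and, ha, hb]; rfl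
  rw [h] at this
  simp at this

section step
variable {ι : Type} [DecidableEq ι]

theorem step (B : ι → Set (Fin 13)) (I : Finset ι)
    (hconn : ∀ i ∈ I, (G.induce (B i)).Connected)
    (hdis : ∀ i ∈ I, ∀ j ∈ I, i ≠ j → Disjoint (B i) (B j))
    (hna : ∀ i ∈ I, ∀ j ∈ I, i ≠ j → ∀ u ∈ B i, ∀ v ∈ B j, ¬ G.Adj u v)
    (m r : Nat) (hm : rep m {v | ∃ i ∈ I, v ∈ B i}) (h0 : m ≠ 0)
    (hr : r = comp 12 m (Nat.pow 2 (Nat.log2 m)))
    (hcl : nbm r &&& (m ^^^ r) = 0) :
    ∃ i ∈ I, rep r (B i) ∧ rep (m ^^^ r) {v | ∃ j ∈ I.erase i, v ∈ B j} := by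
  have ht : m.testBit (Nat.log2 m) = true := Nat.testBit_log2 h0
  have ht13 : Nat.log2 m < 13 := rep_lt hm ht
  obtain ⟨i, hi, hti⟩ := (hm.2 ⟨Nat.log2 m, ht13⟩).1 ht
  have hseed : ∀ v, (Nat.pow 2 (Nat.log2 m)).testBit v = true → v = Nat.log2 m := by
    intro v hv
    have h1 : (2 ^ (Nat.log2 m)).testBit v = true := hv
    rw [Nat.testBit_two_pow] at h1
    exact (of_decide_eq_true h1).symm
  have hseed' : (Nat.pow 2 (Nat.log2 m)).testBit (Nat.log2 m) = true := by
    show (2 ^ (Nat.log2 m)).testBit _ = true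
    rw [Nat.testBit_two_pow]
    simp
  -- r is contained in m
  have hrm : ∀ v, r.testBit v = true → m.testBit v = true := by
    rw [hr]
    refine comp_le m (fun v => m.testBit v = true) (fun _ v _ _ _ h => h) 12 _ ?_
    intro v hv
    rw [hseed v hv]
    exact ht
  -- r is contained in B i
  have hrB : ∀ v, r.testBit v = true → ∃ h : v < 13, (⟨v, h⟩ : Fin 13) ∈ B i := by
    rw [hr]
    refine comp_le m (fun v => ∃ h : v < 13, (⟨v, h⟩ : Fin 13) ∈ B i) ?_ 12 _ ?_
    · rintro u v ⟨hu, huB⟩ _ hadj hmv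
      have hv := rep_lt hm hmv
      obtain ⟨j, hj, hvj⟩ := (hm.2 ⟨v, hv⟩).1 hmv
      by_cases hij : i = j
      · subst hij; exact ⟨hv, hvj⟩
      · exact absurd (show G.Adj ⟨u, hu⟩ ⟨v, hv⟩ from hadj) (hna i hi j hj hij _ huB _ hvj)
    · intro v hv
      have := hseed v hv
      subst this
      exact ⟨ht13, hti⟩
  have hBr : ∀ v ∈ B i, r.testBit v.val = true := by
    refine conn_closed (hconn i hi) (fun v => r.testBit v.val = true) ⟨Nat.log2 m, ht13⟩ hti ?_ ?_
    · show r.testBit (Nat.log2 m) = true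
      rw [hr]
      exact le_comp m 12 _ _ hseed'
    · intro u hu v hv hru hadj
      by_contra hrv
      rw [Bool.not_eq_true] at hrv
      have hmv : m.testBit v.val = true := (hm.2 v).2 ⟨i, hi, hv⟩
      have h1 : (nbm r).testBit v.val = true := (nbm_spec r v.val).2 ⟨u.val, u.isLt, hru, hadj⟩
      have h2 := testBit_of_zero hcl h1
      rw [Nat.testBit_xor, hmv, hrv] at h2
      exact absurd h2 (by simp)
  refine ⟨i, hi, ⟨?_, ?_⟩, ?_, ?_⟩
  · -- r < 8192
    refine Nat.lt_pow_two_of_testBit (n := 13) r ?_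
    intro v hv
    by_contra hc
    rw [Bool.not_eq_false] at hc
    have := (hrB v hc).1
    omega
  · intro v
    constructor
    · intro h; exact (hrB v.val h).2
    · exact hBr v
  · refine Nat.lt_pow_two_of_testBit (n := 13) _ ?_
    intro v hv
    have h1 : m.testBit v = false := by
      by_contra hc
      rw [Bool.not_eq_false] at hc
      have := rep_lt hm hc
      omega
    have h2 : r.testBit v = false := by
      by_contra hc
      rw [Bool.not_eq_false] at hc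
      have := (hrB v hc).1
      omega
    rw [Nat.testBit_xor, h1, h2]
    rfl
  · intro v
    rw [Nat.testBit_xor]
    constructor
    · intro h
      cases hmv : m.testBit v.val with
      | false =>
        cases hrv : r.testBit v.val with
        | false => rw [hmv, hrv] at h; simp at h
        | true => rw [hrm _ hrv] at hmv; simp at hmv
      | true =>
        cases hrv : r.testBit v.val with
        | true => rw [hmv, hrv] at h; simp at h
        | false =>
          obtain ⟨j, hj, hvj⟩ := (hm.2 v).1 hmv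
          refine ⟨j, Finset.mem_erase.2 ⟨?_, hj⟩, hvj⟩
          rintro rfl
          rw [hBr v hvj] at hrv
          simp at hrv
    · rintro ⟨j, hj, hvj⟩
      have hj' := Finset.mem_erase.1 hj
      have h1 : m.testBit v.val = true := (hm.2 v).2 ⟨j, hj'.2, hvj⟩
      have h2 : r.testBit v.val = false := by
        by_contra hc
        rw [Bool.not_eq_false] at hc
        have hvi := (hrB v.val hc).2
        exact (Set.disjoint_left.1 (hdis i hi j hj'.2 (Ne.symm hj'.1))) hvi hvj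
      rw [h1, h2]
      rfl

end step

theorem beq_false_of_ne {a b : Nat} (h : a ≠ b) : Nat.beq a b = false := by
  cases hb : Nat.beq a b with
  | false => rfl
  | true => exact absurd (Nat.eq_of_beq_eq_true hb) h

theorem ne_zero_of_testBit {m v : Nat} (h : m.testBit v = true) : m ≠ 0 := by
  rintro rfl
  simp at h

theorem chk_unfold (M : List (List Nat)) (m : Nat) (hm : m ≠ 0) (h : chk M m = true) :
    nbm (comp 12 m (Nat.pow 2 (Nat.log2 m))) &&& (m ^^^ comp 12 m (Nat.pow 2 (Nat.log2 m))) = 0 ∧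
      chk2 M m (comp 12 m (Nat.pow 2 (Nat.log2 m)))
        (m ^^^ comp 12 m (Nat.pow 2 (Nat.log2 m))) = true := by
  unfold chk at h
  rw [beq_false_of_ne hm, force_eq, force_eq] at h
  have h' := (Bool.and_eq_true _ _).mp h
  exact ⟨land_zero_of h'.1, h'.2⟩

theorem chk2_unfold (M : List (List Nat)) (m r1 m1 : Nat) (hm : m1 ≠ 0)
    (h : chk2 M m r1 m1 = true) :
    nbm (comp 12 m1 (Nat.pow 2 (Nat.log2 m1))) &&&
        (m1 ^^^ comp 12 m1 (Nat.pow 2 (Nat.log2 m1))) = 0 ∧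
      chk3 M m r1 (comp 12 m1 (Nat.pow 2 (Nat.log2 m1)))
        (m1 ^^^ comp 12 m1 (Nat.pow 2 (Nat.log2 m1))) = true := by
  unfold chk2 at h
  rw [beq_false_of_ne hm, force_eq, force_eq] at h
  have h' := (Bool.and_eq_true _ _).mp h
  exact ⟨land_zero_of h'.1, h'.2⟩

theorem chk3_unfold (M : List (List Nat)) (m r1 r2 m2 : Nat) (hm : m2 ≠ 0)
    (h : chk3 M m r1 r2 m2 = true) :
    nbm (comp 12 m2 (Nat.pow 2 (Nat.log2 m2))) &&&
        (m2 ^^^ comp 12 m2 (Nat.pow 2 (Nat.log2 m2))) = 0 ∧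
      (m2 ^^^ comp 12 m2 (Nat.pow 2 (Nat.log2 m2)) = 0 →
        ∃ e ∈ M.getD (Nat.shiftRight m 7) [],
          matchE m r1 r2 (comp 12 m2 (Nat.pow 2 (Nat.log2 m2))) e = true) := by
  unfold chk3 at h
  rw [beq_false_of_ne hm, force_eq, force_eq] at h
  have h' := (Bool.and_eq_true _ _).mp h
  refine ⟨land_zero_of h'.1, ?_⟩
  intro h0
  have h2 := h'.2
  have h3 : Nat.beq (Nat.xor m2 (comp 12 m2 (Nat.pow 2 (Nat.log2 m2)))) 0 = true := by
    rw [xor_eq, h0]; rfl
  rw [h3] at h2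
  exact List.any_eq_true.1 h2

theorem entry (B : Fin 3 → Set (Fin 13))
    (hconn : ∀ i, (G.induce (B i)).Connected)
    (hdis : ∀ i j, i ≠ j → Disjoint (B i) (B j))
    (hna : ∀ i j, i ≠ j → ∀ u ∈ B i, ∀ v ∈ B j, ¬ G.Adj u v) :
    ∃ m e : Nat, rep m {v | ∃ i, v ∈ B i} ∧ e ∈ L.getD (Nat.shiftRight m 7) [] ∧ fld 0 e = m ∧
      ∀ k, k = 1 ∨ k = 2 ∨ k = 3 → ∃ i, rep (fld (k + 3) e) (B i) ∧
        fld k e = nbm (fld (k + 3) e) := by
  obtain ⟨m, hm⟩ := exists_rep {v | ∃ i, v ∈ B i}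
  have hne : ∀ i, ∃ v, v ∈ B i := fun i => by
    obtain ⟨⟨v, hv⟩⟩ := (hconn i).nonempty
    exact ⟨v, hv⟩
  have hnz : ∀ (I : Finset (Fin 3)) (m : Nat), I.Nonempty →
      rep m {v | ∃ i ∈ I, v ∈ B i} → m ≠ 0 := by
    rintro I m ⟨i, hi⟩ h
    obtain ⟨v, hv⟩ := hne i
    exact ne_zero_of_testBit ((h.2 v).2 ⟨i, hi, hv⟩)
  have hm' : rep m {v | ∃ i ∈ (Finset.univ : Finset (Fin 3)), v ∈ B i} := by
    simpa using hm
  have h0 : m ≠ 0 := hnz _ m ⟨0, Finset.mem_univ _⟩ hm'
  obtain ⟨hc1, hk1⟩ := chk_unfold L m h0 (chk_lt m hm.1)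
  obtain ⟨i1, hi1, hr1, hm1⟩ := step B Finset.univ (fun i _ => hconn i)
    (fun i _ j _ h => hdis i j h) (fun i _ j _ h => hna i j h) m _ hm' h0 rfl hc1
  have hcard1 : (Finset.univ.erase i1).card = 2 := by
    rw [Finset.card_erase_of_mem hi1]; rfl
  have h1 := hnz (Finset.univ.erase i1) _ (Finset.card_pos.1 (by omega)) hm1
  obtain ⟨hc2, hk2⟩ := chk2_unfold L _ _ _ h1 hk1
  obtain ⟨i2, hi2, hr2, hm2⟩ := step B (Finset.univ.erase i1) (fun i _ => hconn i)
    (fun i _ j _ h => hdis i j h) (fun i _ j _ h => hna i j h) _ _ hm1 h1 rfl hc2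
  have hcard2 : ((Finset.univ.erase i1).erase i2).card = 1 := by
    rw [Finset.card_erase_of_mem hi2, hcard1]
  have h2 := hnz ((Finset.univ.erase i1).erase i2) _ (Finset.card_pos.1 (by omega)) hm2
  obtain ⟨hc3, hk3⟩ := chk3_unfold L _ _ _ _ h2 hk2
  obtain ⟨i3, hi3, hr3, hm3⟩ := step B ((Finset.univ.erase i1).erase i2) (fun i _ => hconn i)
    (fun i _ j _ h => hdis i j h) (fun i _ j _ h => hna i j h) _ _ hm2 h2 rfl hc3
  have hempty : (((Finset.univ.erase i1).erase i2).erase i3) = ∅ := by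
    rw [← Finset.card_eq_zero, Finset.card_erase_of_mem hi3, hcard2]
  rw [hempty] at hm3
  obtain ⟨e, he, hmatch⟩ := hk3 (by
    apply Nat.eq_of_testBit_eq
    intro v
    rw [Nat.zero_testBit]
    by_contra hc
    rw [Bool.not_eq_false] at hc
    have hv := rep_lt hm3 hc
    obtain ⟨i, hi, -⟩ := (hm3.2 ⟨v, hv⟩).1 hc
    exact absurd hi (Finset.notMem_empty _))
  refine ⟨m, e, hm, he, ?_⟩
  unfold matchE at hmatch
  simp only [Bool.and_eq_true] at hmatch
  obtain ⟨⟨⟨⟨⟨⟨ha, hb⟩, hcc⟩, hd⟩, hee⟩, hf⟩, hg⟩ := hmatch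
  have ha := Nat.eq_of_beq_eq_true ha
  have hb := Nat.eq_of_beq_eq_true hb
  have hcc := Nat.eq_of_beq_eq_true hcc
  have hd := Nat.eq_of_beq_eq_true hd
  have hee := Nat.eq_of_beq_eq_true hee
  have hf := Nat.eq_of_beq_eq_true hf
  have hg := Nat.eq_of_beq_eq_true hg
  refine ⟨ha, ?_⟩
  rintro k (rfl | rfl | rfl)
  · exact ⟨i1, by rw [hb]; exact hr1, by rw [hee, hb]⟩
  · exact ⟨i2, by rw [hcc]; exact hr2, by rw [hf, hcc]⟩
  · exact ⟨i3, by rw [hd]; exact hr3, by rw [hg, hd]⟩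

end Pool.Agent.W127.K33F
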