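import Pool.Agent.W127.K33Core

set_option autoImplicit false

/-!
# A 13-vertex triangle-free graph without K_{3,3} induced minor: correctness of the computation
-/

namespace Pool.Agent.W127.K33F

theorem chk_all : allB (chk L) 13 0 = true := by decide +kernel

theorem pairs_all : pairsL L L = true := by decide +kernel

theorem force_eq {α : Type} (n : Nat) (k : Nat → α) : force n k = k n := by
  cases n <;> rfl

theorem allB_spec (p : Nat → Bool) (d : Nat) : ∀ b, allB p d b = true →
    ∀ x, x < 2 ^ d → p (b + x) = true := by
  induction d with
  | zero =>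
    intro b h x hx
    have hx0 : x = 0 := by simpa using hx
    subst hx0
    have h' : force b p = true := h
    rw [force_eq] at h'
    simpa using h'
  | succ d ih =>
    intro b h x hx
    have h' : (allB p d b && allB p d (Nat.add b (Nat.pow 2 d))) = true := h
    rw [Bool.and_eq_true] at h'
    rcases Nat.lt_or_ge x (2 ^ d) with hlt | hge
    · exact ih b h'.1 x hlt
    · have h2 := ih _ h'.2 (x - 2 ^ d) (by
        have : 2 ^ (d + 1) = 2 ^ d + 2 ^ d := by ring
        omega)
      have h3 : Nat.add b (Nat.pow 2 d) + (x - 2 ^ d) = b + x := by
        show b + 2 ^ d + (x - 2 ^ d) = b + x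
        omega
      rwa [h3] at h2

theorem chk_lt (m : Nat) (hm : m < 8192) : chk L m = true := by
  have := allB_spec (chk L) 13 0 chk_all m (by norm_num; exact hm)
  simpa using this

theorem allL_spec {α : Type} (p : α → Bool) (l : List α) (h : allL p l = true) :
    ∀ x ∈ l, p x = true := by
  induction l with
  | nil => intro x hx; exact absurd hx (List.not_mem_nil)
  | cons a t ih =>
    have h' : cond (p a) (allL p t) false = true := h
    cases hpa : p a with
    | false => rw [hpa] at h'; simp at h'
    | true =>
      rw [hpa] at h'
      intro x hx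
      rcases List.mem_cons.1 hx with rfl | hx
      · exact hpa
      · exact ih h' x hx

theorem allI_spec (p : Nat → List Nat → Bool) (l : List (List Nat)) :
    ∀ i, allI p l i = true → ∀ j, j < l.length → p (i + j) (l.getD j []) = true := by
  induction l with
  | nil => intro i _ j hj; exact absurd hj (Nat.not_lt_zero _)
  | cons a t ih =>
    intro i h j hj
    have h' : cond (p i a) (allI p t (Nat.add i 1)) false = true := h
    cases hpa : p i a with
    | false => rw [hpa] at h'; simp at h'
    | true =>
      rw [hpa] at h'
      cases j with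
      | zero => simpa using hpa
      | succ j =>
        have h2 := ih (Nat.add i 1) h' j (by simpa using hj)
        have h3 : Nat.add i 1 + j = i + (j + 1) := by
          show i + 1 + j = i + (j + 1)
          omega
        rw [h3] at h2
        simpa using h2

/-! ### bits -/

theorem land_eq (a b : Nat) : Nat.land a b = a &&& b := rfl
theorem lor_eq (a b : Nat) : Nat.lor a b = a ||| b := rfl
theorem xor_eq (a b : Nat) : Nat.xor a b = a ^^^ b := rfl
theorem shr_eq (a b : Nat) : Nat.shiftRight a b = a >>> b := rfl

theorem term_eq (c k y : Nat) : Nat.mul (Nat.land (Nat.shiftRight c k) 1) y =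
    if c.testBit k = true then y else 0 := by
  rw [land_eq, shr_eq, Nat.and_one_is_mod, Nat.shiftRight_eq_div_pow, ← Nat.toNat_testBit]
  show (c.testBit k).toNat * y = _
  cases c.testBit k <;> simp

theorem nbmAux_spec (c u : Nat) (k : Nat) : (nbmAux k c).testBit u = true ↔
    ∃ v, v < k ∧ c.testBit v = true ∧ (nbr v).testBit u = true := by
  induction k with
  | zero =>
    constructor
    · intro h
      have : (0 : Nat).testBit u = true := h
      simp at this
    · rintro ⟨v, hv, -⟩; exact absurd hv (Nat.not_lt_zero _)
  | succ k ih =>
    have h0 : nbmAux (k + 1) c = Nat.lor (nbmAux k c)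
        (Nat.mul (Nat.land (Nat.shiftRight c k) 1) (nbr k)) := rfl
    rw [h0, term_eq, lor_eq, Nat.testBit_or, Bool.or_eq_true, ih]
    constructor
    · rintro (⟨v, hv, h1, h2⟩ | h)
      · exact ⟨v, by omega, h1, h2⟩
      · by_cases hc : c.testBit k = true
        · rw [if_pos hc] at h
          exact ⟨k, by omega, hc, h⟩
        · rw [if_neg hc] at h
          simp at h
    · rintro ⟨v, hv, h1, h2⟩
      rcases Nat.lt_or_ge v k with hlt | hge
      · exact Or.inl ⟨v, hlt, h1, h2⟩
      · have : v = k := by omega
        subst this
        right
        rw [if_pos h1]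
        exact h2

theorem nbm_spec (c u : Nat) : (nbm c).testBit u = true ↔
    ∃ v, v < 13 ∧ c.testBit v = true ∧ (nbr v).testBit u = true := nbmAux_spec c u 13

theorem comp_zero (m c : Nat) : comp 0 m c = c := rfl

theorem comp_succ (f m c : Nat) : comp (f + 1) m c =
    cond (Nat.beq (Nat.lor c (Nat.land (nbm c) m)) c) c
      (comp f m (Nat.lor c (Nat.land (nbm c) m))) := by
  show force (Nat.lor c (Nat.land (nbm c) m)) (fun c' => cond (Nat.beq c' c) c (comp f m c')) = _
  rw [force_eq]

/-- the closure stays inside every set that contains the start and is closed in m -/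
theorem comp_le (m : Nat) (b : Nat → Prop)
    (hcl : ∀ u v, b u → u < 13 → (nbr u).testBit v = true → m.testBit v = true → b v) (f : Nat) :
    ∀ c, (∀ v, c.testBit v = true → b v) → ∀ v, (comp f m c).testBit v = true → b v := by
  induction f with
  | zero => intro c hc v hv; exact hc v hv
  | succ f ih =>
    intro c hc v hv
    rw [comp_succ] at hv
    cases hb : Nat.beq (Nat.lor c (Nat.land (nbm c) m)) c with
    | true => rw [hb] at hv; exact hc v hv
    | false =>
      rw [hb] at hv
      refine ih _ ?_ v hv
      intro w hw
      rw [lor_eq, land_eq, Nat.testBit_or, Nat.testBit_and, Bool.or_eq_true, Bool.and_eq_true] at hw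
      rcases hw with hw | ⟨hw1, hw2⟩
      · exact hc w hw
      · obtain ⟨u, hu, h1, h2⟩ := (nbm_spec c w).1 hw1
        exact hcl u w (hc u h1) hu h2 hw2

theorem le_comp (m f : Nat) : ∀ c v, c.testBit v = true → (comp f m c).testBit v = true := by
  induction f with
  | zero => intro c v hv; exact hv
  | succ f ih =>
    intro c v hv
    rw [comp_succ]
    cases hb : Nat.beq (Nat.lor c (Nat.land (nbm c) m)) c with
    | true => exact hv
    | false =>
      refine ih _ v ?_
      rw [lor_eq, Nat.testBit_or, hv]
      rfl

/-! ### the graph -/

def adjb (u v : Fin 13) : Bool := (nbr u.val).testBit v.val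

/-- the graph with 13 vertices -/
def G : SimpleGraph (Fin 13) where
  Adj u v := adjb u v = true
  symm := ⟨by decide +kernel⟩
  loopless := ⟨by decide +kernel⟩

end Pool.Agent.W127.K33F
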